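import Mathlib

set_option autoImplicit false

namespace Pool.Agent.P.MP_230bb5_al

open Function

/-- indices together with three spare labels -/
abbrev Om (ι : Type) : Type := ι ⊕ Fin 3

section comb

variable {G Y ι : Type} [Group G] [LinearOrder ι] (lo hi : Y → ι)

/-- relabelled projection -/
def proj (g : Y × Om ι × Om ι → G) (σ : ι → Om ι) : Y → G :=
  fun y => g (y, σ (lo y), σ (hi y))

def vv (g : Y × Om ι × Om ι → G) (σ : ι → Om ι) : Y → G := fun y =>
  g (y, σ (lo y), .inr 1) * (g (y, .inr 0, .inr 1))⁻¹ * g (y, .inr 0, σ (hi y))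

def cc (g : Y × Om ι × Om ι → G) (σ : ι → Om ι) : Y → G := fun y =>
  g (y, σ (lo y), σ (hi y)) * (g (y, .inr 0, σ (hi y)))⁻¹ * g (y, .inr 0, .inr 1) *
    (g (y, σ (lo y), .inr 1))⁻¹

def bb (g : Y × Om ι × Om ι → G) (m : ι) : Y → G := fun y =>
  if lo y = m then g (y, .inl m, .inr 1) * (g (y, .inr 2, .inr 1))⁻¹
  else if hi y = m then g (y, .inr 2, .inr 1) * ((g (y, .inr 0, .inr 1))⁻¹ * g (y, .inr 0, .inl m) *
    (g (y, .inr 0, .inr 2))⁻¹ * g (y, .inr 0, .inr 1)) * (g (y, .inr 2, .inr 1))⁻¹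
  else 1

def pos (U : Finset ι) : ι → Om ι := fun i => if i ∈ U then .inr 2 else .inl i

def InS (A : Subgroup (Y → G)) (g : Y × Om ι × Om ι → G) : Prop :=
  ∀ σ : ι → Om ι, Injective σ → proj lo hi g σ ∈ A

def Loc (K : Subgroup (Y → G)) (g : Y × Om ι × Om ι → G) : Prop :=
  ∀ ω : Fin 4 → Om ι, ∃ g₀, InS lo hi K g₀ ∧ ∀ y a b, g₀ (y, ω a, ω b) = g (y, ω a, ω b)

omit [LinearOrder ι] in
theorem proj_eq (g : Y × Om ι × Om ι → G) (σ : ι → Om ι) :
    proj lo hi g σ = cc lo hi g σ * vv lo hi g σ := by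
  funext y
  simp [proj, cc, vv, mul_assoc]

theorem inj_update {σ : ι → Om ι} (hσ : Injective σ) (i : ι) {c : Om ι} (hc : ∀ j, σ j ≠ c) :
    Injective (update σ i c) := by
  intro a b h
  by_cases ha : a = i <;> by_cases hb : b = i
  · rw [ha, hb]
  · rw [ha, update_self, update_of_ne hb] at h
    exact absurd h.symm (hc b)
  · rw [hb, update_self, update_of_ne ha] at h
    exact absurd h (hc a)
  · rw [update_of_ne ha, update_of_ne hb] at h
    exact hσ h

theorem update_ne {σ : ι → Om ι} (i : ι) {c d : Om ι} (hd : ∀ j, σ j ≠ d) (hcd : c ≠ d) (j : ι) :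
    update σ i c j ≠ d := by
  by_cases h : j = i
  · rw [h, update_self]; exact hcd
  · rw [update_of_ne h]; exact hd j

variable {lo hi} (hlt : ∀ y, lo y < hi y) {D K : Subgroup (Y → G)}

omit [LinearOrder ι] in
theorem InS.loc {g : Y × Om ι × Om ι → G} (hg : InS lo hi K g) : Loc lo hi K g :=
  fun _ => ⟨g, hg, fun _ _ _ => rfl⟩

include hlt

theorem cc_single {g : Y × Om ι × Om ι → G} (hg : Loc lo hi K g) {σ : ι → Om ι}
    (hσ : Injective σ) (h0 : ∀ i, σ i ≠ .inr 0) (h1 : ∀ i, σ i ≠ .inr 1) (p : ι × ι) :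
    (fun y => if (lo y, hi y) = p then cc lo hi g σ y else 1) ∈ K := by
  obtain ⟨i, j⟩ := p
  by_cases hij : i < j
  swap
  · have : (fun y => if (lo y, hi y) = (i, j) then cc lo hi g σ y else 1) = 1 := by
      funext y
      rw [if_neg]
      · rfl
      · intro h
        obtain ⟨rfl, rfl⟩ := Prod.mk.inj h
        exact hij (hlt y)
    rw [this]
    exact K.one_mem
  obtain ⟨g₀, hK, hag⟩ := hg ![σ i, σ j, .inr 0, .inr 1]
  have m1 := hK σ hσ
  have m2 := hK _ (inj_update hσ i h0)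
  have m3 := hK _ (inj_update (inj_update hσ i h0) j (update_ne i h1 (by simp)))
  have m4 := hK _ (inj_update hσ j h1)
  have m := K.mul_mem (K.mul_mem (K.mul_mem m1 (K.inv_mem m2)) m3) (K.inv_mem m4)
  refine (congrArg (· ∈ K) ?_).mp m
  funext y
  have hy := hlt y
  simp only [Pi.mul_apply, Pi.inv_apply, proj]
  split_ifs with h
  · obtain ⟨hl, hh⟩ := Prod.mk.inj h
    have e1 : g₀ (y, σ i, σ j) = g (y, σ i, σ j) := hag y 0 1
    have e2 : g₀ (y, .inr 0, σ j) = g (y, .inr 0, σ j) := hag y 2 1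
    have e3 : g₀ (y, .inr 0, .inr 1) = g (y, .inr 0, .inr 1) := hag y 2 3
    have e4 : g₀ (y, σ i, .inr 1) = g (y, σ i, .inr 1) := hag y 0 3
    simp only [cc, hl, hh, update_self, update_of_ne hij.ne, update_of_ne hij.ne', e1, e2, e3, e4]
  · by_cases hi' : lo y ≠ i ∧ hi y ≠ i
    · have k : ∀ a, a ≠ i → update (update σ i (.inr 0)) j (.inr 1) a = update σ j (.inr 1) a := by
        intro a ha
        by_cases haj : a = j
        · rw [haj, update_self, update_self]
        · rw [update_of_ne haj, update_of_ne haj, update_of_ne ha]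
      rw [update_of_ne hi'.1, update_of_ne hi'.2, k _ hi'.1, k _ hi'.2]
      simp
    · have hj' : lo y ≠ j ∧ hi y ≠ j := by
        by_cases hl : lo y = i
        · refine ⟨by rw [hl]; exact hij.ne, fun hh => h (by rw [hl, hh])⟩
        · have hh : hi y = i := by tauto
          refine ⟨fun h' => ?_, by rw [hh]; exact hij.ne⟩
          rw [h', hh] at hy
          exact absurd hij (not_lt.2 hy.le)
      rw [update_of_ne hj'.1, update_of_ne hj'.2, update_of_ne hj'.1, update_of_ne hj'.2]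
      simp

theorem cc_mem [Fintype ι] {g : Y × Om ι × Om ι → G} (hg : Loc lo hi K g) {σ : ι → Om ι}
    (hσ : Injective σ) (h0 : ∀ i, σ i ≠ .inr 0) (h1 : ∀ i, σ i ≠ .inr 1) :
    cc lo hi g σ ∈ K := by
  have key : ∀ A : Finset (ι × ι),
      (fun y => if (lo y, hi y) ∈ A then cc lo hi g σ y else 1) ∈ K := by
    intro A
    induction A using Finset.induction_on with
    | empty => exact K.one_mem
    | insert p A hp ih =>
      have m := K.mul_mem (cc_single hlt hg hσ h0 h1 p) ih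
      refine (congrArg (· ∈ K) ?_).mp m
      funext y
      simp only [Pi.mul_apply, Finset.mem_insert]
      by_cases h : (lo y, hi y) = p
      · simp [h, hp]
      · simp [h]
  simpa using key Finset.univ

theorem vv_mem [Fintype ι] {g : Y × Om ι × Om ι → G} (hg : InS lo hi K g) {σ : ι → Om ι}
    (hσ : Injective σ) (h0 : ∀ i, σ i ≠ .inr 0) (h1 : ∀ i, σ i ≠ .inr 1) :
    vv lo hi g σ ∈ K := by
  have m := K.mul_mem (K.inv_mem (cc_mem hlt hg.loc hσ h0 h1)) (hg σ hσ)
  rwa [proj_eq, inv_mul_cancel_left] at m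

theorem exists_delta {g : Y × Om ι × Om ι → G} (hg : InS lo hi D g) (m : ι) (A : Finset ι) :
    ∃ δ ∈ D, ∀ y, (lo y = m → δ y = 1) ∧ (hi y = m → δ y =
      if lo y ∈ A then g (y, .inr 2, .inr 1) * (g (y, .inl (lo y), .inr 1))⁻¹ else 1) := by
  induction A using Finset.induction_on with
  | empty => exact ⟨1, D.one_mem, fun y => ⟨fun _ => rfl, fun _ => by simp⟩⟩
  | insert i A hi' ih =>
    obtain ⟨δ, hδ, h⟩ := ih
    by_cases him : i < m
    swap
    · refine ⟨δ, hδ, fun y => ⟨(h y).1, fun hh => ?_⟩⟩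
      have : lo y ≠ i := fun h' => him (by rw [← h', ← hh]; exact hlt y)
      rw [(h y).2 hh]
      simp [this]
    have i1 : Injective (update (Sum.inl : ι → Om ι) m (.inr 1)) :=
      inj_update Sum.inl_injective m (by simp)
    have m1 := hg _ i1
    have m2 := hg _ (inj_update i1 i (c := .inr 2) (update_ne m (by simp) (by simp)))
    refine ⟨_, D.mul_mem (D.mul_mem m2 (D.inv_mem m1)) hδ, fun y => ⟨fun hl => ?_, fun hh => ?_⟩⟩
    · have h1 : lo y ≠ i := by rw [hl]; exact him.ne'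
      have h2 : hi y ≠ i := (lt_trans him (hl ▸ hlt y)).ne'
      simp only [Pi.mul_apply, Pi.inv_apply, proj, update_of_ne h1, update_of_ne h2, (h y).1 hl]
      simp
    · have h2 : hi y ≠ i := by rw [hh]; exact him.ne'
      have h3 : lo y ≠ m := by rw [← hh]; exact (hlt y).ne
      simp only [Pi.mul_apply, Pi.inv_apply, proj, update_of_ne h2, (h y).2 hh]
      by_cases h1 : lo y = i
      · have h4 : lo y ∉ A := by rw [h1]; exact hi'
        rw [if_neg h4, if_pos (by rw [h1]; exact Finset.mem_insert_self _ _), update_of_ne h3, hh,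
          update_self, h1, update_self, mul_one]
      · rw [update_of_ne h1]
        simp [h1]

theorem exists_conj [Fintype ι] {g : Y × Om ι × Om ι → G} (hg : InS lo hi D g) (m : ι)
    (U : Finset ι) (hm : m ∉ U) : ∃ δ ∈ D,
      δ * (vv lo hi g (pos U) * (vv lo hi g (pos (insert m U)))⁻¹) * δ⁻¹ = bb lo hi g m := by
  obtain ⟨δ, hδ, h⟩ := exists_delta hlt hg m Uᶜ
  refine ⟨δ, hδ, ?_⟩
  funext y
  have hy := hlt y
  simp only [Pi.mul_apply, Pi.inv_apply, vv, bb]
  have k : ∀ a, a ≠ m → pos (insert m U) a = pos U a := fun a ha => by simp [pos, ha]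
  have k1 : pos U m = .inl m := by simp [pos, hm]
  have k2 : pos (insert m U) m = .inr 2 := by simp [pos]
  split_ifs with h1 h2
  · have h2 : hi y ≠ m := by rw [← h1]; exact hy.ne'
    rw [(h y).1 h1, k _ h2, h1, k1, k2]
    group
  · rw [(h y).2 h2, k _ h1, h2, k1, k2]
    by_cases h3 : lo y ∈ U
    · have : pos U (lo y) = .inr 2 := by simp [pos, h3]
      rw [if_neg (by simpa using h3), this]
      group
    · have : pos U (lo y) = .inl (lo y) := by simp [pos, h3]
      rw [if_pos (by simpa using h3), this]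
      group
  · rw [k _ h1, k _ h2]
    group

variable (hKD : K ≤ D) (hn : ∀ d ∈ D, ∀ k ∈ K, d * k * d⁻¹ ∈ K)
include hKD hn

theorem bb_mem [Fintype ι] {g : Y × Om ι × Om ι → G} (hg : Loc lo hi K g) (m : ι) :
    bb lo hi g m ∈ K := by
  obtain ⟨g₀, hK, hag⟩ := hg ![.inl m, .inr 0, .inr 1, .inr 2]
  have e : bb lo hi g m = bb lo hi g₀ m := by
    funext y
    have e1 : g₀ (y, .inl m, .inr 1) = g (y, .inl m, .inr 1) := hag y 0 2
    have e2 : g₀ (y, .inr 2, .inr 1) = g (y, .inr 2, .inr 1) := hag y 3 2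
    have e3 : g₀ (y, .inr 0, .inr 1) = g (y, .inr 0, .inr 1) := hag y 1 2
    have e4 : g₀ (y, .inr 0, .inl m) = g (y, .inr 0, .inl m) := hag y 1 0
    have e5 : g₀ (y, .inr 0, .inr 2) = g (y, .inr 0, .inr 2) := hag y 1 3
    simp only [bb, e1, e2, e3, e4, e5]
  obtain ⟨δ, hδ, h⟩ := exists_conj hlt (fun σ hσ => hKD (hK σ hσ)) m ∅ (by simp)
  have p0 : pos (∅ : Finset ι) = Sum.inl := by funext i; simp [pos]
  have p1 : pos (insert m (∅ : Finset ι)) = update Sum.inl m (.inr 2) := by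
    funext i
    by_cases hi' : i = m
    · simp [pos, hi']
    · simp [pos, hi']
  rw [e, ← h, p0, p1]
  refine hn _ hδ _ (K.mul_mem (vv_mem hlt hK Sum.inl_injective (by simp) (by simp))
    (K.inv_mem (vv_mem hlt hK (inj_update Sum.inl_injective m (by simp))
      (update_ne m (by simp) (by simp)) (update_ne m (by simp) (by simp)))))

theorem chain_mem [Fintype ι] {g : Y × Om ι × Om ι → G} (hD : InS lo hi D g)
    (hg : Loc lo hi K g) (U : Finset ι) :
    vv lo hi g (pos ∅) * (vv lo hi g (pos U))⁻¹ ∈ K := by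
  induction U using Finset.induction_on with
  | empty => simpa using K.one_mem
  | insert m U hm ih =>
    obtain ⟨δ, hδ, h⟩ := exists_conj hlt hD m U hm
    have m1 := hn _ (D.inv_mem hδ) _ (bb_mem hlt hKD hn hg m)
    rw [← h] at m1
    have m2 := K.mul_mem ih m1
    refine (congrArg (· ∈ K) ?_).mp m2
    group

theorem proj_mem [Fintype ι] {g : Y × Om ι × Om ι → G} (hD : InS lo hi D g)
    (hg : Loc lo hi K g) : proj lo hi g Sum.inl ∈ K := by
  have p0 : pos (∅ : Finset ι) = Sum.inl := by funext i; simp [pos]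
  obtain ⟨g₀, hK, hag⟩ := hg ![.inr 0, .inr 1, .inr 2, .inr 2]
  have e : vv lo hi g (pos Finset.univ) = vv lo hi g₀ (pos Finset.univ) := by
    funext y
    have e2 : g₀ (y, .inr 2, .inr 1) = g (y, .inr 2, .inr 1) := hag y 2 1
    have e3 : g₀ (y, .inr 0, .inr 1) = g (y, .inr 0, .inr 1) := hag y 0 1
    have e5 : g₀ (y, .inr 0, .inr 2) = g (y, .inr 0, .inr 2) := hag y 0 2
    simp only [vv, pos, Finset.mem_univ, if_true, e2, e3, e5]
  have m0 := chain_mem hlt hKD hn (fun σ hσ => hKD (hK σ hσ)) hK.loc Finset.univ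
  have m1 := chain_mem hlt hKD hn hD hg Finset.univ
  rw [p0] at m0 m1
  have m2 := vv_mem hlt hK Sum.inl_injective (by simp) (by simp)
  have m3 := cc_mem hlt hg Sum.inl_injective (by simp) (by simp)
  have m4 := K.mul_mem m3 (K.mul_mem m1 (K.mul_mem (K.inv_mem m0) m2))
  rw [proj_eq]
  refine (congrArg (· ∈ K) ?_).mp m4
  rw [e]
  group

end comb

end Pool.Agent.P.MP_230bb5_al
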