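import Mathlib
import Pool.Agent.P.MP_7ab5f9_al.Main

set_option autoImplicit false

namespace Pool.Agent.P.MP_230bb5_al

open Pool.Agent.P.MP_7ab5f9_al Subgroup

/-- `Q` is nilpotent of class at most two -/
def Cl2 {X : Type} [Group X] (Q : Subgroup X) : Prop :=
  ∀ a ∈ Q, ∀ b ∈ Q, ∀ c ∈ Q, a * b * a⁻¹ * b⁻¹ * c = c * (a * b * a⁻¹ * b⁻¹)

section cube

variable {X : Type} [Group X] (Q : Subgroup X)

/-- three-dimensional cubes over a normal subgroup of class two -/
def IsCube (h : Bool → Bool → Bool → X) : Prop :=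
  ∃ g a₁ a₂ a₃ z₁₂ z₁₃ z₂₃ : X, a₁ ∈ Q ∧ a₂ ∈ Q ∧ a₃ ∈ Q ∧
    z₁₂ ∈ centralizer (Q : Set X) ∧ z₁₃ ∈ centralizer (Q : Set X) ∧
    z₂₃ ∈ centralizer (Q : Set X) ∧
    h false false false = g ∧ h true false false = g * a₁ ∧ h false true false = g * a₂ ∧
    h false false true = g * a₃ ∧ h true true false = g * a₁ * a₂ * z₁₂ ∧
    h true false true = g * a₁ * a₃ * z₁₃ ∧ h false true true = g * a₂ * a₃ * z₂₃ ∧
    h true true true = g * a₁ * a₂ * a₃ * z₁₂ * z₁₃ * z₂₃

variable {Q}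

theorem isCube_one : IsCube Q fun _ _ _ => (1 : X) :=
  ⟨1, 1, 1, 1, 1, 1, 1, Q.one_mem, Q.one_mem, Q.one_mem, one_mem _, one_mem _, one_mem _, by simp⟩

theorem IsCube.const {h : Bool → Bool → Bool → X} (hh : IsCube Q h) (u : X) :
    IsCube Q fun a b c => u * h a b c := by
  obtain ⟨g, a₁, a₂, a₃, z₁₂, z₁₃, z₂₃, m1, m2, m3, c1, c2, c3, e0, e1, e2, e3, e4, e5, e6, e7⟩ := hh
  refine ⟨u * g, a₁, a₂, a₃, z₁₂, z₁₃, z₂₃, m1, m2, m3, c1, c2, c3, ?_⟩
  simp only [e0, e1, e2, e3, e4, e5, e6, e7, mul_assoc, and_self]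

theorem IsCube.face₁ [hQ : Q.Normal] {h : Bool → Bool → Bool → X} (hh : IsCube Q h) {x : X}
    (hx : x ∈ Q) : IsCube Q fun a b c => (if a then x else 1) * h a b c := by
  obtain ⟨g, a₁, a₂, a₃, z₁₂, z₁₃, z₂₃, m1, m2, m3, c1, c2, c3, e0, e1, e2, e3, e4, e5, e6, e7⟩ := hh
  have hy : g⁻¹ * x * g ∈ Q := by simpa using hQ.conj_mem x hx g⁻¹
  refine ⟨g, g⁻¹ * x * g * a₁, a₂, a₃, z₁₂, z₁₃, z₂₃, Q.mul_mem hy m1, m2, m3, c1, c2, c3, ?_⟩
  simp [e0, e1, e2, e3, e4, e5, e6, e7, mul_assoc]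

theorem comm_mem_centralizer (h2 : Cl2 Q) {a b : X} (ha : a ∈ Q) (hb : b ∈ Q) :
    a * b * a⁻¹ * b⁻¹ ∈ centralizer (Q : Set X) :=
  fun c hc => (h2 a ha b hb c hc).symm

theorem swap_eq (h2 : Cl2 Q) {y a : X} (hy : y ∈ Q) (ha : a ∈ Q) :
    ∃ c ∈ Q, c ∈ centralizer (Q : Set X) ∧ y * a = a * y * c := by
  refine ⟨y⁻¹ * a⁻¹ * y⁻¹⁻¹ * a⁻¹⁻¹, ?_, comm_mem_centralizer h2 (Q.inv_mem hy) (Q.inv_mem ha), by group⟩
  simpa using Q.mul_mem (Q.mul_mem (Q.mul_mem (Q.inv_mem hy) (Q.inv_mem ha)) hy) ha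

theorem IsCube.face₂ [hQ : Q.Normal] (h2 : Cl2 Q) {h : Bool → Bool → Bool → X} (hh : IsCube Q h)
    {x : X} (hx : x ∈ Q) : IsCube Q fun a b c => (if b then x else 1) * h a b c := by
  obtain ⟨g, a₁, a₂, a₃, z₁₂, z₁₃, z₂₃, m1, m2, m3, c1, c2, c3, e0, e1, e2, e3, e4, e5, e6, e7⟩ := hh
  obtain ⟨y, hy, rfl⟩ : ∃ y ∈ Q, x = g * y * g⁻¹ :=
    ⟨g⁻¹ * x * g, by simpa using hQ.conj_mem x hx g⁻¹, by group⟩
  obtain ⟨c, -, hc, hs⟩ := swap_eq h2 hy m1
  have k2 : a₂ * c = c * a₂ := hc a₂ m2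
  have k3 : a₃ * c = c * a₃ := hc a₃ m3
  refine ⟨g, a₁, y * a₂, a₃, c * z₁₂, z₁₃, z₂₃, m1, Q.mul_mem hy m2, m3, mul_mem hc c1, c2, c3, ?_⟩
  simp only [e0, e1, e2, e3, e4, e5, e6, e7, if_true, Bool.false_eq_true, if_false, one_mul,
    true_and]
  refine ⟨by group, ?_, by group, ?_⟩
  · calc g * y * g⁻¹ * (g * a₁ * a₂ * z₁₂) = g * (y * a₁) * a₂ * z₁₂ := by group
      _ = g * a₁ * y * (c * a₂) * z₁₂ := by rw [hs]; group
      _ = _ := by rw [← k2]; group
  · calc g * y * g⁻¹ * (g * a₁ * a₂ * a₃ * z₁₂ * z₁₃ * z₂₃)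
        = g * (y * a₁) * a₂ * a₃ * z₁₂ * z₁₃ * z₂₃ := by group
      _ = g * a₁ * y * (c * a₂) * a₃ * z₁₂ * z₁₃ * z₂₃ := by rw [hs]; group
      _ = g * a₁ * y * a₂ * (c * a₃) * z₁₂ * z₁₃ * z₂₃ := by rw [← k2]; group
      _ = _ := by rw [← k3]; group

theorem IsCube.face₃ [hQ : Q.Normal] (h2 : Cl2 Q) {h : Bool → Bool → Bool → X} (hh : IsCube Q h)
    {x : X} (hx : x ∈ Q) : IsCube Q fun a b c => (if c then x else 1) * h a b c := by
  obtain ⟨g, a₁, a₂, a₃, z₁₂, z₁₃, z₂₃, m1, m2, m3, c1, c2, c3, e0, e1, e2, e3, e4, e5, e6, e7⟩ := hh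
  obtain ⟨y, hy, rfl⟩ : ∃ y ∈ Q, x = g * y * g⁻¹ :=
    ⟨g⁻¹ * x * g, by simpa using hQ.conj_mem x hx g⁻¹, by group⟩
  obtain ⟨c, hcQ, hc, hs⟩ := swap_eq h2 hy m1
  obtain ⟨d, hdQ, hd, ht⟩ := swap_eq h2 hy m2
  have k2 : a₂ * c = c * a₂ := hc a₂ m2
  have k3 : a₃ * c = c * a₃ := hc a₃ m3
  have l3 : a₃ * d = d * a₃ := hd a₃ m3
  have n1 : c * z₁₂ = z₁₂ * c := c1 c hcQ
  have n2 : d * z₁₂ = z₁₂ * d := c1 d hdQ
  have n3 : d * z₁₃ = z₁₃ * d := c2 d hdQ
  have n4 : d * c = c * d := hc d hdQ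
  refine ⟨g, a₁, a₂, y * a₃, z₁₂, c * z₁₃, d * z₂₃, m1, m2, Q.mul_mem hy m3, c1, mul_mem hc c2,
    mul_mem hd c3, ?_⟩
  simp only [e0, e1, e2, e3, e4, e5, e6, e7, if_true, Bool.false_eq_true, if_false, one_mul,
    true_and]
  refine ⟨by group, ?_, ?_, ?_⟩
  · calc g * y * g⁻¹ * (g * a₁ * a₃ * z₁₃) = g * (y * a₁) * a₃ * z₁₃ := by group
      _ = g * a₁ * y * (c * a₃) * z₁₃ := by rw [hs]; group
      _ = _ := by rw [← k3]; group
  · calc g * y * g⁻¹ * (g * a₂ * a₃ * z₂₃) = g * (y * a₂) * a₃ * z₂₃ := by group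
      _ = g * a₂ * y * (d * a₃) * z₂₃ := by rw [ht]; group
      _ = _ := by rw [← l3]; group
  · calc g * y * g⁻¹ * (g * a₁ * a₂ * a₃ * z₁₂ * z₁₃ * z₂₃)
        = g * (y * a₁) * a₂ * a₃ * z₁₂ * z₁₃ * z₂₃ := by group
      _ = g * a₁ * y * (c * a₂) * a₃ * z₁₂ * z₁₃ * z₂₃ := by rw [hs]; group
      _ = g * a₁ * (y * a₂) * (c * a₃) * z₁₂ * z₁₃ * z₂₃ := by rw [← k2]; group
      _ = g * a₁ * a₂ * y * (d * a₃) * (c * z₁₂) * z₁₃ * z₂₃ := by rw [ht, ← k3]; group
      _ = g * a₁ * a₂ * y * a₃ * (d * z₁₂) * c * z₁₃ * z₂₃ := by rw [← l3, n1]; group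
      _ = g * a₁ * a₂ * y * a₃ * z₁₂ * (d * c) * z₁₃ * z₂₃ := by rw [n2]; group
      _ = g * a₁ * a₂ * y * a₃ * z₁₂ * c * (d * z₁₃) * z₂₃ := by rw [n4]; group
      _ = _ := by rw [n3]; group

theorem IsCube.top_eq_one {h : Bool → Bool → Bool → X} (hh : IsCube Q h)
    (h1 : ∀ a b c, ¬ (a = true ∧ b = true ∧ c = true) → h a b c = 1) : h true true true = 1 := by
  obtain ⟨g, a₁, a₂, a₃, z₁₂, z₁₃, z₂₃, -, -, -, -, -, -, e0, e1, e2, e3, e4, e5, e6, e7⟩ := hh
  rw [h1 _ _ _ (by simp)] at e0 e1 e2 e3 e4 e5 e6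
  subst e0
  rw [one_mul] at e1 e2 e3
  subst e1 e2 e3
  simp only [one_mul] at e4 e5 e6
  subst e4 e5 e6
  simpa using e7

theorem IsCube.bot_eq_one {h : Bool → Bool → Bool → X} (hh : IsCube Q h)
    (h1 : ∀ a b c, ¬ (a = false ∧ b = false ∧ c = false) → h a b c = 1) :
    h false false false = 1 := by
  obtain ⟨g, a₁, a₂, a₃, z₁₂, z₁₃, z₂₃, -, -, -, -, -, -, e0, e1, e2, e3, e4, e5, e6, e7⟩ := hh
  rw [h1 _ _ _ (by simp)] at e1 e2 e3 e4 e5 e6 e7
  obtain rfl : a₁ = g⁻¹ := eq_inv_of_mul_eq_one_right e1.symm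
  obtain rfl : a₂ = g⁻¹ := eq_inv_of_mul_eq_one_right e2.symm
  obtain rfl : a₃ = g⁻¹ := eq_inv_of_mul_eq_one_right e3.symm
  have k : ∀ z : X, 1 = g * g⁻¹ * g⁻¹ * z → z = g := fun z hz => by
    have : z = g * (g * g⁻¹ * g⁻¹ * z) := by group
    rw [this, ← hz, mul_one]
  rw [k _ e4, k _ e5, k _ e6] at e7
  rw [e0, e7]
  group

end cube

/-- closure under finite subdirect products -/
theorem mem_of_subdirect {F : Cls} (hF : IsForm F)
    (hne : ∃ (X : Type) (inst : Group X), Finite X ∧ @F X inst)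
    {C X J : Type} [Group C] [Finite C] [Group X] (f : J → C →* X)
    (hf : ∀ j, F (f j).range) (hsep : ∀ c, (∀ j, f j c = 1) → c = 1) : F C := by
  refine mem_of_good hF (good_res hF hne C) (MonoidHom.id C) Function.surjective_id ?_
  intro c hc
  refine hsep c fun j => ?_
  have := res_le_ker hF (f j).rangeRestrict (f j).rangeRestrict_surjective (hf j) hc
  exact congrArg Subtype.val this

theorem mem_range_of_surj {F : Cls} (hF : IsForm F) {C X : Type} [Group C] [Group X] [Finite X]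
    (f : C →* X) (hf : Function.Surjective f) (hX : F X) : F f.range := by
  refine hF.quot X _ hX ((MonoidHom.id X).codRestrict _ fun x => hf x) ?_
  rintro ⟨x, hx⟩
  exact ⟨x, rfl⟩

/-- evaluation of a subgroup of a power at one coordinate -/
def evAt {X J : Type} [Group X] (C : Subgroup (J → X)) (j : J) : C →* X :=
  (Pi.evalMonoidHom (fun _ : J => X) j).comp C.subtype

theorem range_evAt {X J : Type} [Group X] (S : Set (J → X)) (j : J) :
    (evAt (Subgroup.closure S) j).range = Subgroup.closure ((fun f => f j) '' S) := by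
  rw [evAt, MonoidHom.range_comp, range_subtype, MonoidHom.map_closure]
  rfl

/-- supplements of a normal subgroup of class two stay in the formation -/
theorem supplement_mem {F : Cls} (hF : IsForm F) {X : Type} [Group X] [Finite X]
    (Q : Subgroup X) [Q.Normal] (h2 : Cl2 Q) (hX : F X) (U : Subgroup X) (hU : U ⊔ Q = ⊤) :
    F U := by
  let S : Set (Bool × Bool × Bool → X) :=
    {f | (∃ u ∈ U, f = fun _ => u) ∨ (∃ x ∈ Q, f = fun j => if j.1 then x else 1) ∨
      (∃ x ∈ Q, f = fun j => if j.2.1 then x else 1) ∨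
      (∃ x ∈ Q, f = fun j => if j.2.2 then x else 1)}
  have hcube : ∀ f ∈ Subgroup.closure S, IsCube Q fun a b c => f (a, b, c) := by
    intro f hf
    induction hf using closure_induction_left with
    | one => exact isCube_one
    | mul_left s hs f _ ih =>
      rcases hs with ⟨u, -, rfl⟩ | ⟨x, hx, rfl⟩ | ⟨x, hx, rfl⟩ | ⟨x, hx, rfl⟩
      · exact ih.const u
      · exact ih.face₁ hx
      · exact ih.face₂ h2 hx
      · exact ih.face₃ h2 hx
    | inv_mul_cancel s hs f _ ih =>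
      rcases hs with ⟨u, -, rfl⟩ | ⟨x, hx, rfl⟩ | ⟨x, hx, rfl⟩ | ⟨x, hx, rfl⟩
      · exact ih.const u⁻¹
      · have := ih.face₁ (Q.inv_mem hx)
        simpa [apply_ite Inv.inv] using this
      · have := ih.face₂ h2 (Q.inv_mem hx)
        simpa [apply_ite Inv.inv] using this
      · have := ih.face₃ h2 (Q.inv_mem hx)
        simpa [apply_ite Inv.inv] using this
  have hC : F (Subgroup.closure S) := by
    refine mem_of_subdirect hF ⟨X, inferInstance, inferInstance, hX⟩
      (J := {j : Bool × Bool × Bool // j ≠ (false, false, false)})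
      (fun j => evAt (Subgroup.closure S) j.1) (fun j => ?_) ?_
    · refine mem_range_of_surj hF _ ?_ hX
      rw [← MonoidHom.range_eq_top, range_evAt, eq_top_iff, ← hU]
      refine sup_le (fun u hu => Subgroup.subset_closure ⟨_, Or.inl ⟨u, hu, rfl⟩, rfl⟩) fun x hx => ?_
      obtain ⟨⟨a, b, c⟩, hj⟩ := j
      cases a
      · cases b
        · cases c
          · exact absurd rfl hj
          · exact Subgroup.subset_closure ⟨_, Or.inr (Or.inr (Or.inr ⟨x, hx, rfl⟩)), by simp⟩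
        · exact Subgroup.subset_closure ⟨_, Or.inr (Or.inr (Or.inl ⟨x, hx, rfl⟩)), by simp⟩
      · exact Subgroup.subset_closure ⟨_, Or.inr (Or.inl ⟨x, hx, rfl⟩), by simp⟩
    · rintro ⟨f, hf⟩ h
      have h1 : ∀ a b c, ¬ (a = false ∧ b = false ∧ c = false) → f (a, b, c) = 1 :=
        fun a b c hn => h ⟨(a, b, c), fun h' => hn (by simpa using h')⟩
      have h0 := (hcube f hf).bot_eq_one h1
      apply Subtype.ext
      funext ⟨a, b, c⟩
      by_cases hn : a = false ∧ b = false ∧ c = false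
      · obtain ⟨rfl, rfl, rfl⟩ := hn
        exact h0
      · exact h1 a b c hn
  have hr : (evAt (Subgroup.closure S) (false, false, false)).range = U := by
    rw [range_evAt]
    apply le_antisymm
    · rw [closure_le]
      rintro _ ⟨f, ⟨u, hu, rfl⟩ | ⟨x, -, rfl⟩ | ⟨x, -, rfl⟩ | ⟨x, -, rfl⟩, rfl⟩
      · exact hu
      all_goals simpa using U.one_mem
    · exact fun u hu => Subgroup.subset_closure ⟨_, Or.inl ⟨u, hu, rfl⟩, rfl⟩
  rw [← hr]
  exact hF.quot _ _ hC _ (evAt (Subgroup.closure S) _).rangeRestrict_surjective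

/-- a group is in any formation containing its subgroups generated by a fixed supplement of `Q`
and two elements of `Q` -/
theorem mem_of_small {F : Cls} (hF : IsForm F) {X : Type} [Group X] [Finite X]
    (Q : Subgroup X) [Q.Normal] (h2 : Cl2 Q) (U : Set X) (hU : Subgroup.closure U ⊔ Q = ⊤)
    (hs : ∀ a ∈ Q, ∀ b ∈ Q, F (Subgroup.closure (U ∪ {a, b}))) : F X := by
  classical
  let S : Set (Finset Q → X) :=
    {f | (∃ u ∈ U, f = fun _ => u) ∨ ∃ x : Q, f = fun I => if x ∈ I then (x : X) else 1}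
  have hcube : ∀ (J : Finset Q) (i j l : Q), i ∉ J → j ∉ J → l ∉ J → i ≠ j → i ≠ l → j ≠ l →
      ∀ f ∈ Subgroup.closure S, IsCube Q fun a b c =>
        f (J ∪ (if a then {i} else ∅) ∪ (if b then {j} else ∅) ∪ (if c then {l} else ∅)) := by
    intro J i j l hi hj hl hij hil hjl f hf
    have key : ∀ (x : Q) (x' : X), x' ∈ Q → ∀ h : Bool → Bool → Bool → X, IsCube Q h →
        IsCube Q fun a b c => (if x ∈ J ∪ (if a then {i} else ∅) ∪ (if b then {j} else ∅) ∪
          (if c then {l} else ∅) then x' else 1) * h a b c := by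
      intro x x' hx' h hh
      by_cases h1 : x = i
      · subst h1
        have := hh.face₁ hx'
        refine (congrArg (IsCube Q) ?_).mp this
        funext a b c
        cases a <;> cases b <;> cases c <;> simp [hi, hij, hil]
      by_cases h3 : x = j
      · subst h3
        have := hh.face₂ h2 hx'
        refine (congrArg (IsCube Q) ?_).mp this
        funext a b c
        cases a <;> cases b <;> cases c <;> simp [hj, h1, hjl]
      by_cases h4 : x = l
      · subst h4
        have := hh.face₃ h2 hx'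
        refine (congrArg (IsCube Q) ?_).mp this
        funext a b c
        cases a <;> cases b <;> cases c <;> simp [hl, h1, h3]
      · have := hh.const (if x ∈ J then x' else 1)
        refine (congrArg (IsCube Q) ?_).mp this
        funext a b c
        cases a <;> cases b <;> cases c <;> simp [h1, h3, h4]
    induction hf using closure_induction_left with
    | one => exact isCube_one
    | mul_left s hs f _ ih =>
      rcases hs with ⟨u, -, rfl⟩ | ⟨x, rfl⟩
      · exact ih.const u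
      · exact key x x x.2 _ ih
    | inv_mul_cancel s hs f _ ih =>
      rcases hs with ⟨u, -, rfl⟩ | ⟨x, rfl⟩
      · exact ih.const u⁻¹
      · have := key x (x : X)⁻¹ (Q.inv_mem x.2) _ ih
        simpa only [Pi.mul_apply, Pi.inv_apply, apply_ite Inv.inv, inv_one] using this
  have hr : ∀ a b : Q, (evAt (Subgroup.closure S) {a, b}).range = Subgroup.closure (U ∪ {(a : X), (b : X)}) := by
    intro a b
    rw [range_evAt]
    apply le_antisymm
    · rw [closure_le]
      rintro _ ⟨f, ⟨u, hu, rfl⟩ | ⟨x, rfl⟩, rfl⟩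
      · exact Subgroup.subset_closure (Or.inl hu)
      · show (if x ∈ ({a, b} : Finset Q) then (x : X) else 1) ∈ Subgroup.closure _
        split_ifs with h
        · refine Subgroup.subset_closure (Or.inr ?_)
          rcases Finset.mem_insert.1 h with rfl | h
          · exact Or.inl rfl
          · rw [Finset.mem_singleton.1 h]; exact Or.inr rfl
        · exact one_mem _
    · rw [closure_le]
      rintro x (hx | rfl | rfl)
      · exact Subgroup.subset_closure ⟨_, Or.inl ⟨x, hx, rfl⟩, rfl⟩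
      · exact Subgroup.subset_closure ⟨_, Or.inr ⟨a, rfl⟩, by simp⟩
      · exact Subgroup.subset_closure ⟨_, Or.inr ⟨b, rfl⟩, by simp⟩
  have hone : ∀ f ∈ Subgroup.closure S, f ∅ = f {1} := by
    intro f hf
    induction hf using closure_induction with
    | mem s hs =>
      rcases hs with ⟨u, -, rfl⟩ | ⟨x, rfl⟩
      · rfl
      · by_cases hx : x = 1 <;> simp [hx]
    | one => rfl
    | mul f g _ _ h1 h3 => simp [h1, h3]
    | inv f _ h1 => simp [h1]
  have hC : F (Subgroup.closure S) := by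
    refine mem_of_subdirect hF ⟨_, inferInstance, inferInstance, hs 1 Q.one_mem 1 Q.one_mem⟩
      (J := Q × Q) (fun j => evAt (Subgroup.closure S) {j.1, j.2}) (fun j => ?_) ?_
    · rw [hr]; exact hs _ j.1.2 _ j.2.2
    · rintro ⟨f, hf⟩ h
      have h' : ∀ a b : Q, f {a, b} = 1 := fun a b => h (a, b)
      apply Subtype.ext
      funext I
      show f I = 1
      induction I using Finset.strongInduction with
      | H I ih =>
        by_cases hI : I.card ≤ 2
        · rcases Nat.lt_or_ge I.card 1 with h0 | h0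
          · have : I = ∅ := Finset.card_eq_zero.1 (by omega)
            rw [this, hone f hf]
            simpa using h' 1 1
          · rcases Nat.lt_or_ge I.card 2 with h1 | h1
            · obtain ⟨a, rfl⟩ := Finset.card_eq_one.1 (show I.card = 1 by omega)
              simpa using h' a a
            · obtain ⟨a, b, -, rfl⟩ := Finset.card_eq_two.1 (show I.card = 2 by omega)
              exact h' a b
        · obtain ⟨i, j, l, hi, hj, hl, hij, hil, hjl⟩ := Finset.two_lt_card_iff.1 (not_le.1 hI)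
          have hc := hcube (I \ {i, j, l}) i j l (by simp) (by simp) (by simp) hij hil hjl f hf
          have h3 := hc.top_eq_one fun a b c hn => ih _ (by
            rw [Finset.ssubset_iff_of_subset]
            · cases a
              · exact ⟨i, hi, by cases b <;> cases c <;> simp [hij, hil]⟩
              · cases b
                · exact ⟨j, hj, by cases c <;> simp [hij.symm, hjl]⟩
                · cases c
                  · exact ⟨l, hl, by simp [hil.symm, hjl.symm]⟩
                  · exact absurd ⟨rfl, rfl, rfl⟩ hn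
            · have k : ∀ (d : Bool) (m : Q), m ∈ I → (if d then ({m} : Finset Q) else ∅) ⊆ I := by
                intro d m hm
                cases d
                · exact Finset.empty_subset _
                · exact Finset.singleton_subset_iff.2 hm
              exact Finset.union_subset (Finset.union_subset (Finset.union_subset
                Finset.sdiff_subset (k a i hi)) (k b j hj)) (k c l hl))
          have h4 : I \ {i, j, l} ∪ {i} ∪ {j} ∪ {l} = I := by
            ext x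
            simp only [Finset.mem_union, Finset.mem_sdiff, Finset.mem_insert, Finset.mem_singleton]
            constructor
            · rintro (((h | rfl) | rfl) | rfl)
              exacts [h.1, hi, hj, hl]
            · intro hx
              tauto
          simpa only [if_true, h4] using h3
  have : Fintype Q := Fintype.ofFinite Q
  refine hF.quot _ X hC (evAt (Subgroup.closure S) Finset.univ) ?_
  rw [← MonoidHom.range_eq_top, range_evAt, eq_top_iff, ← hU]
  refine sup_le ?_ fun x hx => Subgroup.subset_closure ⟨_, Or.inr ⟨⟨x, hx⟩, rfl⟩, by simp⟩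
  rw [closure_le]
  exact fun u hu => Subgroup.subset_closure ⟨_, Or.inl ⟨u, hu, rfl⟩, rfl⟩

end Pool.Agent.P.MP_230bb5_al
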