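import Mathlib

set_option autoImplicit false

namespace Pool.Agent.P.MP_230bb5_al

/-- a class of finite groups -/
abbrev GroupClass : Type 1 := ∀ (X : Type) [Group X] [Finite X], Prop

/-- a formation: closed under isomorphism, under quotients, and under passing from `X/M`, `X/N`
to `X/(M ∩ N)` -/
def IsFormation (F : GroupClass) : Prop :=
  (∀ (X Y : Type) [Group X] [Finite X] [Group Y] [Finite Y], Nonempty (X ≃* Y) → F X → F Y) ∧
  (∀ (X : Type) [Group X] [Finite X] (N : Subgroup X) [N.Normal], F X → F (X ⧸ N)) ∧
  (∀ (X : Type) [Group X] [Finite X] (M N : Subgroup X) [M.Normal] [N.Normal],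
    F (X ⧸ M) → F (X ⧸ N) → F (X ⧸ (M ⊓ N)))

/-- the formation generated by `G`: the intersection of all formations containing `G` -/
def genFormation (G : Type) [Group G] [Finite G] : GroupClass :=
  fun H _ _ => ∀ E : GroupClass, IsFormation E → E G → E H

/-- the subformations of the formation generated by `G` -/
def subformations (G : Type) [Group G] [Finite G] : Set GroupClass :=
  {F | IsFormation F ∧ ∀ (H : Type) [Group H] [Finite H], F H → genFormation G H}

end Pool.Agent.P.MP_230bb5_al
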