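import Mathlib
import Pool.Agent.P.MP_230bb5_al.Cube
import Pool.Agent.P.MP_230bb5_al.Comb

set_option autoImplicit false

namespace Pool.Agent.P.MP_230bb5_al

open Pool.Agent.P.MP_7ab5f9_al Function

theorem res_le_map {F : Cls} (hF : IsForm F)
    (hne : ∃ (X : Type) (inst : Group X), Finite X ∧ @F X inst)
    {X Y : Type} [Group X] [Group Y] [Finite X] (f : X →* Y) (hf : Surjective f) :
    res F Y ≤ (res F X).map f := by
  obtain ⟨hn, hX⟩ := good_res hF hne X
  have hN : ((res F X).map f).Normal := hn.map f hf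
  refine sInf_le ⟨hN, mem_of_good hF ⟨hn, hX⟩ ((QuotientGroup.mk' _).comp f)
    ((QuotientGroup.mk'_surjective _).comp hf) ?_⟩
  intro x hx
  simpa using Subgroup.mem_map_of_mem f hx

/-- members of `F` generated by a family indexed by `T` lie in `E` -/
def SmallLe (T : Type) (F E : Cls) : Prop :=
  ∀ (X : Type) [Group X] [Finite X] (u : T → X), Subgroup.closure (Set.range u) = ⊤ → F X → E X

theorem SmallLe.ne {T : Type} {F E : Cls} (h : SmallLe T F E) (hF : IsForm F)
    (hne : ∃ (X : Type) (inst : Group X), Finite X ∧ @F X inst) :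
    ∃ (X : Type) (inst : Group X), Finite X ∧ @E X inst := by
  obtain ⟨Z, _, _, hZ⟩ := hne
  refine ⟨PUnit, inferInstance, inferInstance, h PUnit (fun _ => 1) (Subsingleton.elim _ _) ?_⟩
  exact hF.quot Z _ hZ 1 fun y => ⟨1, Subsingleton.elim _ _⟩

theorem mem_of_gen {J : Type} {F E : Cls} (hF : IsForm F) (hE : IsForm E)
    (h : SmallLe (J ⊕ Bool) F E) {X : Type} [Group X] [Finite X] (hX : F X) (Q : Subgroup X)
    [Q.Normal] (h2 : Cl2 Q) (u : J → X) (hu : Subgroup.closure (Set.range u) ⊔ Q = ⊤) : E X := by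
  refine mem_of_small hE Q h2 _ hu fun a ha b hb => ?_
  have hV : F (Subgroup.closure (Set.range u ∪ {a, b})) := by
    refine supplement_mem hF Q h2 hX _ ?_
    rw [eq_top_iff, ← hu]
    exact sup_le_sup_right (Subgroup.closure_mono Set.subset_union_left) _
  let u' : J ⊕ Bool → Subgroup.closure (Set.range u ∪ {a, b}) := fun j =>
    match j with
    | .inl j => ⟨u j, Subgroup.subset_closure (Or.inl ⟨j, rfl⟩)⟩
    | .inr true => ⟨a, Subgroup.subset_closure (Or.inr (Or.inl rfl))⟩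
    | .inr false => ⟨b, Subgroup.subset_closure (Or.inr (Or.inr rfl))⟩
  refine h _ u' ?_ hV
  rw [eq_top_iff, ← Subgroup.closure_closure_coe_preimage]
  apply Subgroup.closure_mono
  rintro ⟨x, hx⟩ (⟨j, h⟩ | h | h)
  · exact ⟨.inl j, Subtype.ext h⟩
  · exact ⟨.inr true, Subtype.ext h.symm⟩
  · exact ⟨.inr false, Subtype.ext h.symm⟩

theorem Cl2.map {X Y : Type} [Group X] [Group Y] {Q : Subgroup X} (h2 : Cl2 Q) (f : X →* Y) :
    Cl2 (Q.map f) := by
  rintro _ ⟨a, ha, rfl⟩ _ ⟨b, hb, rfl⟩ _ ⟨c, hc, rfl⟩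
  simpa using congrArg f (h2 a ha b hb c hc)

theorem res_le_of_gen {J : Type} {F E : Cls} (hF : IsForm F) (hE : IsForm E)
    (hne : ∃ (X : Type) (inst : Group X), Finite X ∧ @F X inst)
    (h : SmallLe (J ⊕ Bool) F E) {X : Type} [Group X] [Finite X] (Q : Subgroup X)
    [hQ : Q.Normal] (h2 : Cl2 Q) (u : J → X) (hu : Subgroup.closure (Set.range u) ⊔ Q = ⊤) :
    res E X ≤ res F X := by
  obtain ⟨hn, hX⟩ := good_res hF hne X
  have : (Q.map (QuotientGroup.mk' (res F X))).Normal := hQ.map _ (QuotientGroup.mk'_surjective _)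
  refine sInf_le ⟨hn, mem_of_gen hF hE h hX _ (h2.map (QuotientGroup.mk' _))
    (fun j => QuotientGroup.mk' _ (u j)) ?_⟩
  have := congrArg (Subgroup.map (QuotientGroup.mk' (res F X))) hu
  rw [Subgroup.map_sup, MonoidHom.map_closure, ← Set.range_comp,
    Subgroup.map_top_of_surjective _ (QuotientGroup.mk'_surjective _)] at this
  exact this

section sym

variable {G D Y ι S : Type} [Group G] [Group D] [LinearOrder ι]
  (ev : Y → D →* G) (lo hi : Y → ι) (P : Subgroup G) (E : ι → Subgroup D) (s : ι → D → S)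

def hat (e : ι → D) (j : Om ι) : Y × Om ι × Om ι → G := fun c =>
  if c.2.1 = j then ev c.1 (e (lo c.1)) else if c.2.2 = j then ev c.1 (e (hi c.1)) else 1

/-- the symmetrised group -/
def big : Subgroup (Y × Om ι × Om ι → G) := Subgroup.closure
  {g | (∃ q, (∀ y, ev y q ∈ P) ∧ g = fun c => ev c.1 q) ∨
    ∃ e j c, (∀ i, e i ∈ E i ∧ s i (e i) = c) ∧ g = hat ev lo hi e j}

def projHom (σ : ι → Om ι) : (Y × Om ι × Om ι → G) →* (Y → G) where
  toFun g := proj lo hi g σ
  map_one' := rfl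
  map_mul' _ _ := rfl

def resHom (ω : Fin 4 → Om ι) : (Y × Om ι × Om ι → G) →* (Y × Fin 4 × Fin 4 → G) where
  toFun g c := g (c.1, ω c.2.1, ω c.2.2)
  map_one' := rfl
  map_mul' _ _ := rfl

variable {ev lo hi P E s}
  (ha : ∀ i c, ∃ e ∈ E i, s i e = c)
  (hb : ∀ i, ∀ e ∈ E i, ∀ y, i ≠ lo y → i ≠ hi y → ev y e = 1)
  (hc : ∀ i, ∀ e ∈ E i, ∀ e' ∈ E i, s i e = s i e' → ∀ y, ev y (e * e'⁻¹) ∈ P)
  (hd : Subgroup.closure ({d | ∀ y, ev y d ∈ P} ∪ ⋃ i, (E i : Set D)) = ⊤)

include hb in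
theorem proj_hat {σ : ι → Om ι} (hσ : Injective σ) {e : ι → D} (he : ∀ i, e i ∈ E i) (i : ι) :
    proj lo hi (hat ev lo hi e (σ i)) σ = MonoidHom.pi ev (e i) := by
  funext y
  simp only [proj, hat, hσ.eq_iff]
  split_ifs with h1 h2
  · rw [h1]; rfl
  · rw [h2]; rfl
  · exact (hb i _ (he i) y (Ne.symm h1) (Ne.symm h2)).symm

include ha hb hd in
theorem map_big {σ : ι → Om ι} (hσ : Injective σ) :
    (big ev lo hi P E s).map (projHom lo hi σ) = (MonoidHom.pi ev).range := by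
  apply le_antisymm
  · rw [big, MonoidHom.map_closure, Subgroup.closure_le]
    rintro _ ⟨_, ⟨q, -, rfl⟩ | ⟨e, j, c, he, rfl⟩, rfl⟩
    · exact ⟨q, rfl⟩
    · by_cases hj : ∃ i, σ i = j
      · obtain ⟨i, rfl⟩ := hj
        exact ⟨e i, (proj_hat hb hσ (fun i => (he i).1) i).symm⟩
      · refine ⟨1, ?_⟩
        funext y
        have h1 : σ (lo y) ≠ j := fun h => hj ⟨_, h⟩
        have h2 : σ (hi y) ≠ j := fun h => hj ⟨_, h⟩
        simp [projHom, proj, hat, h1, h2]
  · rw [MonoidHom.range_eq_map, ← hd, MonoidHom.map_closure, Subgroup.closure_le]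
    rintro _ ⟨d, hq | hq, rfl⟩
    · exact ⟨_, Subgroup.subset_closure (Or.inl ⟨d, hq, rfl⟩), rfl⟩
    · obtain ⟨i, hi'⟩ := Set.mem_iUnion.1 hq
      choose e he using fun j => ha j (s i d)
      have he' : ∀ j, update e i d j ∈ E j ∧ s j (update e i d j) = s i d := by
        intro j
        by_cases hj : j = i
        · rw [hj, update_self]; exact ⟨hi', rfl⟩
        · rw [update_of_ne hj]; exact he j
      refine ⟨_, Subgroup.subset_closure (Or.inr ⟨update e i d, σ i, s i d, he', rfl⟩), ?_⟩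
      have := proj_hat (lo := lo) (hi := hi) hb hσ (fun j => (he' j).1) i
      rw [update_self] at this
      exact this

include ha hb hd in
theorem exists_theta (hsep : Injective (MonoidHom.pi ev)) {σ : ι → Om ι} (hσ : Injective σ) :
    ∃ θ : big ev lo hi P E s →* D, Surjective θ ∧
      ∀ g, MonoidHom.pi ev (θ g) = proj lo hi g.1 σ := by
  have hm := map_big (lo := lo) (hi := hi) ha hb hd hσ
  let κ : big ev lo hi P E s →* (MonoidHom.pi ev).range :=
    ((projHom lo hi σ).comp (big ev lo hi P E s).subtype).codRestrict _ fun g =>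
      hm ▸ Subgroup.mem_map_of_mem _ g.2
  have key : ∀ g, MonoidHom.pi ev ((MonoidHom.ofInjective hsep).symm (κ g)) = proj lo hi g.1 σ :=
    fun g => MonoidHom.apply_ofInjective_symm hsep (κ g)
  refine ⟨(MonoidHom.ofInjective hsep).symm.toMonoidHom.comp κ, fun d => ?_, key⟩
  obtain ⟨g, hg, h⟩ : MonoidHom.pi ev d ∈ (big ev lo hi P E s).map (projHom lo hi σ) :=
    hm ▸ ⟨d, rfl⟩
  exact ⟨⟨g, hg⟩, hsep ((key ⟨g, hg⟩).trans h)⟩

include ha hc in
theorem res_small [Finite G] [Finite Y] [hP : P.Normal] (h2 : Cl2 P) {F F' : Cls} (hF : IsForm F)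
    (hF' : IsForm F') (hne : ∃ (X : Type) (inst : Group X), Finite X ∧ @F X inst)
    (h : SmallLe ((Fin 4 × S) ⊕ Bool) F F') (ω : Fin 4 → Om ι) :
    res F' ((big ev lo hi P E s).map (resHom ω)) ≤ res F ((big ev lo hi P E s).map (resHom ω)) := by
  choose e he using ha
  let Q : Subgroup ((big ev lo hi P E s).map (resHom ω)) :=
    (Subgroup.pi Set.univ fun _ => P).comap (Subgroup.subtype _)
  have hQ : ∀ x, x ∈ Q ↔ ∀ c, x.1 c ∈ P := fun x => ⟨fun h c => h c trivial, fun h c _ => h c⟩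
  have : Q.Normal := ⟨fun x hx g => (hQ _).2 fun c => hP.conj_mem _ ((hQ _).1 hx c) _⟩
  have hu : ∀ (j : Om ι) (c : S), hat ev lo hi (fun i => e i c) j ∈ big ev lo hi P E s :=
    fun j c => Subgroup.subset_closure (Or.inr ⟨_, j, c, fun i => he i c, rfl⟩)
  refine res_le_of_gen hF hF' hne h Q ?_
    (fun j => ⟨_, Subgroup.mem_map_of_mem _ (hu (ω j.1) j.2)⟩) ?_
  · intro a ha b hb c hc
    apply Subtype.ext
    funext y
    exact h2 _ ((hQ _).1 ha y) _ ((hQ _).1 hb y) _ ((hQ _).1 hc y)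
  · rw [eq_top_iff]
    rintro ⟨_, g, hg, rfl⟩ -
    induction hg using Subgroup.closure_induction with
    | one => exact Subgroup.one_mem _
    | mul x y hx hy ihx ihy => exact Subgroup.mul_mem _ ihx ihy
    | inv x hx ih => exact Subgroup.inv_mem _ ih
    | mem g hg =>
      rcases hg with ⟨q, hq, rfl⟩ | ⟨e', j, c, he', rfl⟩
      · exact Subgroup.mem_sup_right ((hQ _).2 fun y => hq y.1)
      · by_cases hj : ∃ a, ω a = j
        · obtain ⟨a, rfl⟩ := hj
          rw [← Subgroup.mul_mem_cancel_right _ (Subgroup.inv_mem _ (Subgroup.mem_sup_left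
            (Subgroup.subset_closure (Set.mem_range_self (a, c)))))]
          refine Subgroup.mem_sup_right ((hQ _).2 fun y => ?_)
          show hat ev lo hi e' (ω a) (y.1, ω y.2.1, ω y.2.2) *
            (hat ev lo hi (fun i => e i c) (ω a) (y.1, ω y.2.1, ω y.2.2))⁻¹ ∈ P
          simp only [hat]
          split_ifs
          · simpa using hc _ _ (he' _).1 _ (he _ c).1 ((he' _).2.trans (he _ c).2.symm) y.1
          · simpa using hc _ _ (he' _).1 _ (he _ c).1 ((he' _).2.trans (he _ c).2.symm) y.1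
          · simpa using P.one_mem
        · refine Subgroup.mem_sup_right ((hQ _).2 fun y => ?_)
          show hat ev lo hi e' j (y.1, ω y.2.1, ω y.2.2) ∈ P
          have h1 : ω y.2.1 ≠ j := fun h => hj ⟨_, h⟩
          have h2 : ω y.2.2 ≠ j := fun h => hj ⟨_, h⟩
          simp only [hat, if_neg h1, if_neg h2]
          exact P.one_mem

include ha hb hc hd in
theorem res_le_res [Finite G] [Finite D] [Finite Y] [Finite ι] [P.Normal] (h2 : Cl2 P)
    (hlt : ∀ y, lo y < hi y) (hsep : Injective (MonoidHom.pi ev)) {F F' : Cls} (hF : IsForm F)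
    (hF' : IsForm F') (hne : ∃ (X : Type) (inst : Group X), Finite X ∧ @F X inst)
    (h : SmallLe ((Fin 4 × S) ⊕ Bool) F F') : res F' D ≤ res F D := by
  have : Fintype ι := Fintype.ofFinite ι
  have hne' := h.ne hF hne
  intro d hd'
  obtain ⟨θ, hθ, hθ'⟩ := exists_theta (lo := lo) (hi := hi) ha hb hd hsep Sum.inl_injective
  obtain ⟨g, hg, rfl⟩ := res_le_map hF' hne' θ hθ hd'
  obtain ⟨hn, -⟩ := good_res hF hne D
  have := proj_mem hlt (D := (MonoidHom.pi ev).range) (K := (res F D).map (MonoidHom.pi ev))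
    (Subgroup.map_le_range _ _) ?_ (g := g.1) ?_ ?_
  · rw [← hθ'] at this
    exact (Subgroup.mem_map_iff_mem hsep).1 this
  · rintro _ ⟨a, rfl⟩ _ ⟨k, hk, rfl⟩
    exact ⟨a * k * a⁻¹, hn.conj_mem k hk a, by simp⟩
  · intro σ hσ
    obtain ⟨θ, -, hθ'⟩ := exists_theta (lo := lo) (hi := hi) ha hb hd hsep hσ
    exact ⟨θ g, hθ' g⟩
  · intro ω
    have hs := (resHom (G := G) (Y := Y) ω).subgroupMap_surjective (big ev lo hi P E s)
    have h1 := res_small ha hc h2 hF hF' hne h ω (map_res hF' hne' _ hs g hg)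
    obtain ⟨g₀, hg₀, h0⟩ := res_le_map hF hne _ hs h1
    refine ⟨g₀.1, fun σ hσ => ?_, fun y a b => congrFun (congrArg Subtype.val h0) (y, a, b)⟩
    obtain ⟨θ, hθ, hθ'⟩ := exists_theta (lo := lo) (hi := hi) ha hb hd hsep hσ
    exact ⟨θ g₀, map_res hF hne θ hθ g₀ hg₀, hθ' g₀⟩

end sym

end Pool.Agent.P.MP_230bb5_al
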