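import Mathlib
import Pool.Agent.P.MP_230bb5_al.Defs
import Pool.Agent.P.MP_230bb5_al.Sym

set_option autoImplicit false

namespace Pool.Agent.P.MP_230bb5_al

open Pool.Agent.P.MP_7ab5f9_al Function

section structure_

variable (S D : Type) [Group S] [Group D]

/-- kernels of surjections onto `S` -/
def Idx : Type := {N : Subgroup D // ∃ s : D →* S, Surjective s ∧ s.ker = N}

instance [Finite D] : Finite (Idx S D) := by
  unfold Idx; infer_instance

variable {S D}

noncomputable def Idx.s (i : Idx S D) : D →* S := i.2.choose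

theorem Idx.surj (i : Idx S D) : Surjective i.s := i.2.choose_spec.1

theorem Idx.ker (i : Idx S D) : i.s.ker = i.1 := i.2.choose_spec.2

theorem Idx.ext' {i j : Idx S D} (h : i.s.ker = j.s.ker) : i = j :=
  Subtype.ext (by rw [← i.ker, ← j.ker, h])

variable [IsSimpleGroup S]

theorem Idx.map_ker {i j : Idx S D} (h : i ≠ j) : j.s.ker.map i.s = ⊤ := by
  refine ((inferInstance : j.s.ker.Normal).map i.s i.surj).eq_bot_or_eq_top.resolve_left
    fun h1 => ?_
  rw [Subgroup.map_eq_bot_iff] at h1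
  rcases ((inferInstance : i.s.ker.Normal).map j.s j.surj).eq_bot_or_eq_top with h3 | h3
  · rw [Subgroup.map_eq_bot_iff] at h3
    exact h (Idx.ext' (le_antisymm h3 h1))
  · obtain ⟨c, hc⟩ := exists_ne (1 : S)
    obtain ⟨d, rfl⟩ := i.surj c
    obtain ⟨k, hk, hkd⟩ : j.s d ∈ i.s.ker.map j.s := h3 ▸ Subgroup.mem_top _
    have h4 : d * k⁻¹ ∈ j.s.ker := by simp [MonoidHom.mem_ker, hkd]
    have h5 := i.s.ker.mul_mem (h1 h4) hk
    exact hc (by simpa using h5)

theorem Idx.exists_normal (hS : ⁅(⊤ : Subgroup S), (⊤ : Subgroup S)⁆ = ⊤) (i : Idx S D)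
    (A : Finset (Idx S D)) (hi : i ∉ A) :
    ∃ N : Subgroup D, N.Normal ∧ N.map i.s = ⊤ ∧ ∀ j ∈ A, N ≤ j.s.ker := by
  classical
  induction A using Finset.induction_on with
  | empty => exact ⟨⊤, inferInstance, Subgroup.map_top_of_surjective _ i.surj, by simp⟩
  | insert j A hj ih =>
    obtain ⟨N, hN, h1, h2⟩ := ih fun h => hi (Finset.mem_insert_of_mem h)
    have hij : i ≠ j := fun h => hi (h ▸ Finset.mem_insert_self _ _)
    refine ⟨⁅N, j.s.ker⁆, inferInstance, ?_, fun k hk => ?_⟩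
    · rw [Subgroup.map_commutator, h1, Idx.map_ker hij, hS]
    · rcases Finset.mem_insert.1 hk with rfl | hk
      · exact Subgroup.commutator_le_right _ _
      · exact (Subgroup.commutator_le_left _ _).trans (h2 k hk)

theorem Cl2.comm_bot {X : Type} [Group X] {P : Subgroup X} (h2 : Cl2 P) : ⁅⁅P, P⁆, P⁆ = ⊥ := by
  rw [Subgroup.commutator_eq_bot_iff_le_centralizer, Subgroup.commutator_le]
  intro a ha b hb
  exact comm_mem_centralizer h2 ha hb

theorem res_le_of_sep {G : Type} [Group G] [Finite G] [Finite D]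
    (hS : ⁅(⊤ : Subgroup S), (⊤ : Subgroup S)⁆ = ⊤) (t : G →* S × S) (ht : Surjective t)
    (h2 : Cl2 t.ker) (hD : MP_7ab5f9_al.Sep G D) {F F' : Cls} (hF : IsForm F)
    (hF' : IsForm F') (hne : ∃ (X : Type) (inst : Group X), Finite X ∧ @F X inst)
    (h : SmallLe ((Fin 4 × S) ⊕ Bool) F F') : res F' D ≤ res F D := by
  classical
  obtain ⟨ord, -⟩ := exists_wellFoundedLT (Idx S D)
  have : Fintype (Idx S D) := Fintype.ofFinite _
  have : Finite (D →* G) := .of_injective _ DFunLike.coe_injective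
  have hlh : ∀ y : {z : D →* G // Surjective z}, ∃ lo hi : Idx S D, lo < hi ∧
      ∀ d, d ∈ lo.s.ker → d ∈ hi.s.ker → y.1 d ∈ t.ker := by
    intro y
    have hy : Surjective (t.comp y.1) := ht.comp y.2
    let k₁ : Idx S D := ⟨_, (MonoidHom.fst S S).comp (t.comp y.1), Prod.fst_surjective.comp hy, rfl⟩
    let k₂ : Idx S D := ⟨_, (MonoidHom.snd S S).comp (t.comp y.1), Prod.snd_surjective.comp hy, rfl⟩
    have hk : ∀ d, d ∈ k₁.s.ker → d ∈ k₂.s.ker → y.1 d ∈ t.ker := by
      intro d h1 h3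
      rw [Idx.ker] at h1 h3
      exact Prod.ext h1 h3
    have hne : k₁ ≠ k₂ := by
      intro he
      obtain ⟨c, hc⟩ := exists_ne (1 : S)
      obtain ⟨d, hd⟩ := hy (1, c)
      have h1 : d ∈ k₁.1 := congrArg Prod.fst hd
      rw [he] at h1
      exact hc ((congrArg Prod.snd hd).symm.trans h1)
    rcases lt_or_gt_of_ne hne with hlt | hlt
    · exact ⟨k₁, k₂, hlt, hk⟩
    · exact ⟨k₂, k₁, hlt, fun d h1 h3 => hk d h3 h1⟩
  choose lo hi hlt hP using hlh
  choose N hN hmap hle using fun i : Idx S D =>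
    Idx.exists_normal hS i (Finset.univ.erase i) (Finset.notMem_erase _ _)
  have hle' : ∀ i j, j ≠ i → N i ≤ j.s.ker := fun i j hij =>
    hle i j (Finset.mem_erase.2 ⟨hij, Finset.mem_univ _⟩)
  let E : Idx S D → Subgroup D := fun i => ⁅⁅N i, N i⁆, ⁅N i, N i⁆⁆
  have hEN : ∀ i, E i ≤ N i := fun i =>
    (Subgroup.commutator_le_self _).trans (Subgroup.commutator_le_self _)
  have ha : ∀ i c, ∃ e ∈ E i, i.s e = c := by
    intro i c
    have : (E i).map i.s = ⊤ := by
      simp only [E, Subgroup.map_commutator, hmap, hS]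
    exact (this ▸ Subgroup.mem_top c : c ∈ (E i).map i.s)
  refine res_le_res (ev := fun y : {z : D →* G // Surjective z} => y.1) (lo := lo) (hi := hi)
    (P := t.ker) (E := E) (s := fun i => i.s) ha ?_ ?_ ?_ h2 hlt ?_ hF hF' hne h
  · intro i e he y h1 h3
    have h4 : (N i).map y.1 ≤ t.ker := by
      rintro _ ⟨d, hd, rfl⟩
      exact hP y d (hle' i _ h1.symm hd) (hle' i _ h3.symm hd)
    have h5 : (E i).map y.1 ≤ ⊥ := by
      simp only [E, Subgroup.map_commutator]
      rw [← h2.comm_bot]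
      exact Subgroup.commutator_mono (Subgroup.commutator_mono h4 h4)
        ((Subgroup.commutator_le_self _).trans h4)
    exact h5 (Subgroup.mem_map_of_mem _ he)
  · intro i e he e' he' hs y
    have : ∀ j : Idx S D, e * e'⁻¹ ∈ j.s.ker := by
      intro j
      by_cases hj : j = i
      · subst hj
        simp [MonoidHom.mem_ker, hs]
      · exact hle' i j hj (mul_mem (hEN i he) (inv_mem (hEN i he')))
    exact hP y _ (this _) (this _)
  · rw [eq_top_iff]
    rintro d -
    have key : ∀ A : Finset (Idx S D), ∃ e ∈ Subgroup.closure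
        ({d | ∀ y : {z : D →* G // Surjective z}, y.1 d ∈ t.ker} ∪ ⋃ i, (E i : Set D)),
        ∀ i ∈ A, i.s e = i.s d := by
      intro A
      induction A using Finset.induction_on with
      | empty => exact ⟨1, one_mem _, by simp⟩
      | insert j A hj ih =>
        obtain ⟨e, he, h1⟩ := ih
        obtain ⟨e', he', h3⟩ := ha j (j.s d * (j.s e)⁻¹)
        refine ⟨e' * e, mul_mem (Subgroup.subset_closure (Or.inr (Set.mem_iUnion.2 ⟨j, he'⟩))) he,
          fun i hi' => ?_⟩
        rcases Finset.mem_insert.1 hi' with rfl | hi'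
        · simp [h3]
        · have hij : i ≠ j := fun h => hj (h ▸ hi')
          have : i.s e' = 1 := hle' j i hij (hEN j he')
          simp [this, h1 i hi']
    obtain ⟨e, he, h1⟩ := key Finset.univ
    have h3 : ∀ j : Idx S D, d * e⁻¹ ∈ j.s.ker := fun j => by
      simp [MonoidHom.mem_ker, h1 j (Finset.mem_univ _)]
    have h4 : d = d * e⁻¹ * e := by simp
    rw [h4]
    exact mul_mem (Subgroup.subset_closure (Or.inl fun y => hP y _ (h3 _) (h3 _))) he
  · rw [injective_iff_map_eq_one]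
    intro d hd
    exact hD d fun z hz => congrFun hd ⟨z, hz⟩

end structure_

section free

variable (G T : Type) [Group G]

/-- simultaneous evaluation of a word at all tuples -/
def evAll : FreeGroup T →* ((T → G) → G) := FreeGroup.lift fun i τ => τ i

theorem evAll_apply (w : FreeGroup T) (τ : T → G) : evAll G T w τ = FreeGroup.lift τ w := by
  have : (Pi.evalMonoidHom (fun _ : T → G => G) τ).comp (evAll G T) = FreeGroup.lift τ := by
    ext i; simp [evAll]
  exact DFunLike.congr_fun this w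

theorem exists_surj_evAll {X : Type} [Group X] (hX : Img G X) (u : T → X)
    (hu : Subgroup.closure (Set.range u) = ⊤) :
    ∃ θ : (evAll G T).range →* X, Surjective θ := by
  obtain ⟨D, _, _, hD, f, hf⟩ := hX
  choose d hd using fun i => hf (u i)
  have hker : (evAll G T).rangeRestrict.ker ≤ (FreeGroup.lift u).ker := by
    intro w hw
    rw [MonoidHom.mem_ker] at hw ⊢
    have hw' : evAll G T w = 1 := congrArg Subtype.val hw
    have h1 : FreeGroup.lift d w = 1 := by
      refine hD _ fun z _ => ?_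
      have h2 : z.comp (FreeGroup.lift d) = FreeGroup.lift fun i => z (d i) := by
        ext i; simp
      have h3 := DFunLike.congr_fun h2 w
      rw [MonoidHom.comp_apply, ← evAll_apply G, hw'] at h3
      exact h3
    have h4 : f.comp (FreeGroup.lift d) = FreeGroup.lift u := by
      ext i; simp [hd]
    rw [← h4, MonoidHom.comp_apply, h1, map_one]
  have hs : Surjective (FreeGroup.lift u) := by
    rw [← MonoidHom.range_eq_top, FreeGroup.range_lift_eq_closure, hu]
  refine ⟨(evAll G T).rangeRestrict.liftOfSurjective (evAll G T).rangeRestrict_surjective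
    ⟨_, hker⟩, fun x => ?_⟩
  obtain ⟨w, rfl⟩ := hs x
  exact ⟨(evAll G T).rangeRestrict w, by simp⟩

end free

section bridge

/-- a class of finite groups viewed as a class of groups -/
def ext (F : GroupClass) : Cls := fun X _ => ∃ _ : Finite X, F X

theorem IsFormation.isForm {F : GroupClass} (hF : IsFormation F) : IsForm (ext F) where
  quot := by
    rintro X Y _ _ _ ⟨_, hX⟩ f hf
    have : Finite Y := Finite.of_surjective f hf
    exact ⟨this, hF.1 _ _ ⟨QuotientGroup.quotientKerEquivOfSurjective f hf⟩ (hF.2.1 X _ hX)⟩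
  inf := by
    rintro X _ _ M N _ _ ⟨_, hM⟩ ⟨_, hN⟩
    exact ⟨inferInstance, hF.2.2 X M N hM hN⟩

theorem isFormation_of_isForm {F : Cls} (hF : IsForm F) : IsFormation fun X _ _ => F X :=
  ⟨fun X Y _ _ _ _ ⟨e⟩ hX => hF.quot X Y hX e.toMonoidHom e.surjective,
    fun X _ _ N _ hX => hF.quot X _ hX (QuotientGroup.mk' N) (QuotientGroup.mk'_surjective N),
    fun X _ _ M N _ _ hM hN => hF.inf X M N hM hN⟩

theorem img_of_gen {G H : Type} [Group G] [Finite G] [Group H] [Finite H]
    (h : genFormation G H) : Img G H :=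
  h _ (isFormation_of_isForm (isForm_img G)) (img_self G)

/-- finiteness for extensions of a class two group by the square of a simple group -/
theorem finite_subformations {G S : Type} [Group G] [Finite G] [Group S] [Finite S]
    [IsSimpleGroup S] (hS : ⁅(⊤ : Subgroup S), (⊤ : Subgroup S)⁆ = ⊤) (t : G →* S × S)
    (ht : Surjective t) (h2 : Cl2 t.ker) : (subformations G).Finite := by
  have key : ∀ F ∈ subformations G, ∀ F' ∈ subformations G,
      {N : Subgroup (evAll G ((Fin 4 × S) ⊕ Bool)).range | Good (ext F) N} =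
        {N | Good (ext F') N} → ∀ (H : Type) [Group H] [Finite H], F H → F' H := by
    rintro F ⟨hF, hG⟩ F' ⟨hF', -⟩ he H _ _ hH
    have hne : ∃ (X : Type) (inst : Group X), Finite X ∧ @ext F X inst :=
      ⟨H, inferInstance, inferInstance, inferInstance, hH⟩
    have hs : SmallLe ((Fin 4 × S) ⊕ Bool) (ext F) (ext F') := by
      rintro X _ _ u hu ⟨_, hX⟩
      obtain ⟨θ, hθ⟩ := exists_surj_evAll G ((Fin 4 × S) ⊕ Bool) (img_of_gen (hG X hX)) u hu
      have h1 : θ.ker ∈ {N | Good (ext F) N} := good_ker hF.isForm θ hθ ⟨inferInstance, hX⟩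
      rw [he] at h1
      exact mem_of_good hF'.isForm h1 θ hθ le_rfl
    obtain ⟨D, _, _, hD, f, hf⟩ := img_of_gen (hG H hH)
    have h1 := res_le_of_sep hS t ht h2 hD hF.isForm hF'.isForm hne hs
    have h3 := res_le_ker hF.isForm f hf ⟨inferInstance, hH⟩
    obtain ⟨_, h4⟩ := mem_of_good hF'.isForm (good_res hF'.isForm (hs.ne hF.isForm hne) D) f hf
      (h1.trans h3)
    exact h4
  refine Set.Finite.of_finite_image (f := fun F : GroupClass =>
    {N : Subgroup (evAll G ((Fin 4 × S) ⊕ Bool)).range | Good (ext F) N}) (Set.toFinite _) ?_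
  intro F hF F' hF' he
  funext H _ _
  exact propext ⟨key F hF F' hF' he H, key F' hF' F hF he.symm H⟩

end bridge

theorem cl2_of_series {G : Type} [Group G] [Finite G] {p : ℕ} (hp : p.Prime) (G₁ G₂ : Subgroup G)
    [G₁.Normal] [G₂.Normal] (h₁ : ⊥ < G₁) (e₁ : ∀ x ∈ G₁, x ^ p = 1)
    (c₂ : ∀ x ∈ G₂, ∀ y ∈ G₂, x * y * x⁻¹ * y⁻¹ ∈ G₁) (e₂ : ∀ x ∈ G₂, x ^ p ∈ G₁)
    (m₁ : ∀ N : Subgroup G, N.Normal → N ≤ G₁ → N = ⊥ ∨ N = G₁) : Cl2 G₂ := by
  have : Fact p.Prime := ⟨hp⟩
  have hP : IsPGroup p G₂ := fun x => ⟨2, Subtype.ext (by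
    have := e₁ _ (e₂ x x.2)
    rw [← pow_mul, ← pow_two] at this
    exact this)⟩
  have hz : G₁ ⊓ Subgroup.centralizer (G₂ : Set G) ≠ ⊥ := by
    let _ : MulAction G₂ G₁ := MulAction.compHom G₁ ((MulAut.conjNormal (H := G₁)).comp G₂.subtype)
    have hP₁ : IsPGroup p G₁ := fun x => ⟨1, Subtype.ext (by simpa using e₁ x x.2)⟩
    have : Nontrivial G₁ := (Subgroup.nontrivial_iff_ne_bot G₁).2 h₁.ne'
    obtain ⟨n, hn, hc⟩ := hP₁.nontrivial_iff_card.1 this
    obtain ⟨b, hb, hb1⟩ := hP.exists_fixed_point_of_prime_dvd_card_of_fixed_point G₁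
      (hc ▸ dvd_pow_self p hn.ne') (a := 1) (fun g => map_one (MulAut.conjNormal (H := G₁) (g : G)))
    intro hbot
    have h3 : (b : G) ∈ G₁ ⊓ Subgroup.centralizer (G₂ : Set G) := ⟨b.2, fun g hg => by
      have h4 : g * b * g⁻¹ = b := congrArg Subtype.val (hb ⟨g, hg⟩)
      rw [← h4, inv_mul_cancel_right, h4]⟩
    rw [hbot] at h3
    exact hb1 (Subtype.ext (Subgroup.mem_bot.1 h3).symm)
  have hc := (m₁ (G₁ ⊓ Subgroup.centralizer (G₂ : Set G)) inferInstance inf_le_left).resolve_left hz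
  intro a ha b hb c hc'
  have h3 : a * b * a⁻¹ * b⁻¹ ∈ G₁ ⊓ Subgroup.centralizer (G₂ : Set G) := by
    rw [hc]; exact c₂ a ha b hb
  exact (h3.2 c hc').symm

theorem main (p : ℕ) (hp : p.Prime) (G : Type) [Group G] [Finite G] (G₁ G₂ : Subgroup G)
    [G₁.Normal] [G₂.Normal] (h₁ : ⊥ < G₁) (_h₁₂ : G₁ < G₂) (_h₂ : G₂ < ⊤)
    (_c₁ : ∀ x ∈ G₁, ∀ y ∈ G₁, x * y = y * x) (e₁ : ∀ x ∈ G₁, x ^ p = 1)
    (c₂ : ∀ x ∈ G₂, ∀ y ∈ G₂, x * y * x⁻¹ * y⁻¹ ∈ G₁) (e₂ : ∀ x ∈ G₂, x ^ p ∈ G₁)
    (hq : Nonempty (G ⧸ G₂ ≃* alternatingGroup (Fin 5) × alternatingGroup (Fin 5)))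
    (m₁ : ∀ N : Subgroup G, N.Normal → N ≤ G₁ → N = ⊥ ∨ N = G₁)
    (_m₂ : ∀ N : Subgroup G, N.Normal → G₁ ≤ N → N ≤ G₂ → N = G₁ ∨ N = G₂) :
    (subformations G).Finite := by
  obtain ⟨e⟩ := hq
  refine finite_subformations (S := alternatingGroup (Fin 5))
    (commutator_alternatingGroup_eq_top (by simp))
    (e.toMonoidHom.comp (QuotientGroup.mk' G₂)) (e.surjective.comp (QuotientGroup.mk'_surjective _))
    ?_
  have : (e.toMonoidHom.comp (QuotientGroup.mk' G₂)).ker = G₂ := by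
    ext x
    simp
  rw [this]
  exact cl2_of_series hp G₁ G₂ h₁ e₁ c₂ e₂ m₁

end Pool.Agent.P.MP_230bb5_al
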