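import Mathlib
import Pool.Agent.P.MP_230bb5_al.Sym

set_option autoImplicit false

namespace Pool.Agent.P.MP_230bb5_al.NS

open Pool.Agent.P.MP_7ab5f9_al Subgroup Function
open scoped commutatorElement

/-- a descending chain with additive commutators -/
structure NSer {X : Type} [Group X] (Γ : ℕ → Subgroup X) : Prop where
  anti : ∀ s, Γ (s + 1) ≤ Γ s
  comm : ∀ s t, ∀ a ∈ Γ s, ∀ b ∈ Γ t, ⁅a, b⁆ ∈ Γ (s + t)

section ser

variable {X : Type} [Group X] {Γ : ℕ → Subgroup X}

theorem NSer.le (h : NSer Γ) {s t : ℕ} (hst : s ≤ t) : Γ t ≤ Γ s :=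
  antitone_nat_of_succ_le h.anti hst

theorem NSer.conj (h : NSer Γ) {s t : ℕ} {a b : X} (ha : a ∈ Γ s) (hb : b ∈ Γ t) :
    a * b * a⁻¹ ∈ Γ t := by
  have := mul_mem (h.le (Nat.le_add_left t s) (h.comm s t a ha b hb)) hb
  simpa [commutatorElement_def] using this

/-- one more direction -/
def step (h : NSer Γ) (β : X →* X) (s : ℕ) : Subgroup X where
  carrier := {z | z ∈ Γ s ∧ z⁻¹ * β z ∈ Γ (s + 1)}
  one_mem' := ⟨one_mem _, by simp⟩
  mul_mem' := by
    rintro z w ⟨hz, hz'⟩ ⟨hw, hw'⟩
    refine ⟨mul_mem hz hw, ?_⟩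
    have := mul_mem (h.conj (inv_mem hw) hz') hw'
    refine (congrArg (· ∈ Γ (s + 1)) ?_).mp this
    rw [map_mul]; group
  inv_mem' := by
    rintro z ⟨hz, hz'⟩
    refine ⟨inv_mem hz, ?_⟩
    have := h.conj hz (inv_mem hz')
    refine (congrArg (· ∈ Γ (s + 1)) ?_).mp this
    rw [map_inv]; group

theorem NSer.step (h : NSer Γ) (β : X →* X) : NSer (step h β) where
  anti := fun s _ hz => ⟨h.anti s hz.1, h.anti _ hz.2⟩
  comm := by
    rintro s t z ⟨hz, hu⟩ w ⟨hw, hv⟩
    have hc := h.comm s t z hz w hw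
    refine ⟨hc, ?_⟩
    have e1 : β z = z * (z⁻¹ * β z) := by group
    have e2 : β w = w * (w⁻¹ * β w) := by group
    rw [map_commutatorElement, e1, e2]
    generalize z⁻¹ * β z = u at hu
    generalize w⁻¹ * β w = v at hv
    have h1 := h.comm _ _ u hu _ (mul_mem hw (h.anti t hv))
    rw [Nat.add_right_comm] at h1
    have h2 : ⁅z, v⁆ ∈ Γ (s + t + 1) := h.comm _ _ z hz v hv
    have := mul_mem (h.conj (inv_mem hc) (h.conj hz h1)) (h.conj hw h2)
    refine (congrArg (· ∈ Γ (s + t + 1)) ?_).mp this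
    simp only [commutatorElement_def]
    group

theorem three {A B C N : Subgroup X} [N.Normal] (h1 : ⁅⁅B, C⁆, A⁆ ≤ N) (h2 : ⁅⁅C, A⁆, B⁆ ≤ N) :
    ⁅⁅A, B⁆, C⁆ ≤ N := by
  rw [← QuotientGroup.ker_mk' N, ← Subgroup.map_eq_bot_iff] at h1 h2 ⊢
  simp only [Subgroup.map_commutator] at h1 h2 ⊢
  exact commutator_commutator_eq_bot_of_rotate h1 h2

theorem lcs_normal (Q : Subgroup X) [Q.Normal] (n : ℕ) : (Q.lowerCentralSeries n).Normal := by
  induction n with
  | zero => simpa
  | succ n _ => rw [Subgroup.lowerCentralSeries_succ]; infer_instance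

theorem lcs_comm (Q : Subgroup X) [Q.Normal] (b : ℕ) : ∀ a,
    ⁅Q.lowerCentralSeries a, Q.lowerCentralSeries b⁆ ≤ Q.lowerCentralSeries (a + b + 1) := by
  induction b with
  | zero => intro a; exact le_rfl
  | succ b ih =>
    intro a
    have := lcs_normal Q (a + (b + 1) + 1)
    rw [commutator_comm, Subgroup.lowerCentralSeries_succ Q b]
    refine three ?_ ?_
    · rw [commutator_comm Q, ← Subgroup.lowerCentralSeries_succ]
      exact (ih (a + 1)).trans_eq (congrArg _ (by omega))
    · exact commutator_mono (ih a) le_rfl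

/-- the whole group followed by the lower central series -/
def ser (Q : Subgroup X) : ℕ → Subgroup X
  | 0 => ⊤
  | s + 1 => Q.lowerCentralSeries s

theorem nser (Q : Subgroup X) [Q.Normal] : NSer (ser Q) where
  anti := fun s => by
    cases s with
    | zero => exact le_top
    | succ s => exact Q.lowerCentralSeries_antitone (Nat.le_succ s)
  comm := by
    rintro (_ | s) (_ | t) a ha b hb
    · trivial
    · have := lcs_normal Q t
      rw [Nat.zero_add]
      exact commutator_le_right ⊤ (Q.lowerCentralSeries t) (commutator_mem_commutator ha hb)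
    · have := lcs_normal Q s
      exact commutator_le_left (Q.lowerCentralSeries s) ⊤ (commutator_mem_commutator ha hb)
    · have := lcs_comm Q t s (commutator_mem_commutator ha hb)
      rw [show s + 1 + (t + 1) = (s + t + 1) + 1 by omega]
      exact this

variable {ι : Type} [DecidableEq ι]

/-- moving to the upper face in direction j -/
def up (j : ι) : (Finset ι → X) →* (Finset ι → X) where
  toFun f I := f (insert j I)
  map_one' := rfl
  map_mul' _ _ := rfl

/-- cube groups -/
def hk (h : NSer Γ) : List ι → {Δ : ℕ → Subgroup (Finset ι → X) // NSer Δ}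
  | [] => ⟨fun s => (Γ s).comap (Pi.evalMonoidHom (fun _ => X) ∅),
      fun s => comap_mono (h.anti s), fun s t a ha b hb => h.comm s t _ ha _ hb⟩
  | j :: L => ⟨step (hk h L).2 (up j), (hk h L).2.step _⟩

theorem hk_fixed (h : NSer Γ) {f : Finset ι → X} {s : ℕ} (h0 : f ∅ ∈ Γ s) :
    ∀ L : List ι, (∀ j ∈ L, up j f = f) → f ∈ (hk h L).1 s
  | [], _ => h0
  | j :: L, hL => ⟨hk_fixed h h0 L fun i hi => hL i (List.mem_cons_of_mem _ hi), by
      rw [hL j List.mem_cons_self, inv_mul_cancel]; exact one_mem _⟩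

theorem hk_face (h : NSer Γ) (x : ι) {q : X} (hq : q ∈ Γ 1) :
    ∀ L : List ι, L.Nodup → (fun I => if x ∈ I then q else 1) ∈ (hk h L).1 0
  | [], _ => by
    show (if x ∈ (∅ : Finset ι) then q else 1) ∈ Γ 0
    simp
  | j :: L, hL => by
    rw [List.nodup_cons] at hL
    refine ⟨hk_face h x hq L hL.2, ?_⟩
    by_cases hj : x = j
    · subst hj
      refine hk_fixed h (by simpa [up] using hq) L fun i hi => ?_
      have : x ≠ i := fun h => hL.1 (h ▸ hi)
      funext I
      simp [up, this]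
    · have : (up j fun I => if x ∈ I then q else 1) = fun I => if x ∈ I then q else 1 := by
        funext I
        simp [up, hj]
      rw [this, inv_mul_cancel]
      exact one_mem _

theorem hk_top (h : NSer Γ) : ∀ (L : List ι) (s : ℕ) (f : Finset ι → X), L.Nodup →
    f ∈ (hk h L).1 s → (∀ B ⊂ L.toFinset, f B = 1) → f L.toFinset ∈ Γ (s + L.length)
  | [], _, _, _, hf, _ => hf
  | j :: L, s, f, hL, hf, h1 => by
    rw [List.nodup_cons] at hL
    have hj : j ∉ L.toFinset := by simpa using hL.1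
    rw [List.toFinset_cons] at h1 ⊢
    have k : ∀ B ⊆ L.toFinset, f B = 1 := fun B hB =>
      h1 B (Finset.ssubset_of_subset_of_ssubset hB (Finset.ssubset_insert hj))
    have := hk_top h L (s + 1) _ hL.2 hf.2 fun B hB => by
      have h2 := h1 (insert j B) (Finset.ssubset_iff_subset_ne.2
        ⟨Finset.insert_subset_insert _ hB.subset, fun he => hB.ne (by
          rw [← Finset.erase_insert hj, ← he, Finset.erase_insert fun h => hj (hB.subset h)])⟩)
      show (f B)⁻¹ * f (insert j B) = 1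
      rw [k B hB.subset, h2, inv_one, one_mul]
    change (f L.toFinset)⁻¹ * f (insert j L.toFinset) ∈ _ at this
    rw [k _ subset_rfl, inv_one, one_mul] at this
    rw [List.length_cons, ← add_assoc, Nat.add_right_comm]
    exact this

/-- constants and faces -/
def gens (ι : Type) [DecidableEq ι] (Q : Subgroup X) : Set (Finset ι → X) :=
  {f | (∃ u, f = fun _ => u) ∨ ∃ x, ∃ q ∈ Q, f = fun I => if x ∈ I then q else 1}

theorem cube_top {Q : Subgroup X} [Q.Normal] {c : ℕ} (hc : Q.lowerCentralSeries c = ⊥)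
    {f : Finset ι → X} (hf : f ∈ Subgroup.closure (gens ι Q)) {I : Finset ι} (hI : c < I.card)
    (h1 : ∀ B ⊂ I, f B = 1) : f I = 1 := by
  have h2 : Subgroup.closure (gens ι Q) ≤ (hk (nser Q) I.toList).1 0 := by
    rw [closure_le]
    rintro _ (⟨u, rfl⟩ | ⟨x, q, hq, rfl⟩)
    · exact hk_fixed (nser Q) (s := 0) (Subgroup.mem_top _) _ fun _ _ => rfl
    · exact hk_face _ x hq _ I.nodup_toList
  have h3 := hk_top _ _ _ f I.nodup_toList (h2 hf) (by rwa [Finset.toList_toFinset])
  rw [Finset.toList_toFinset, Finset.length_toList, Nat.zero_add] at h3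
  have h4 : f I ∈ Q.lowerCentralSeries c := (nser Q).le (s := c + 1) hI h3
  rwa [hc] at h4

end ser

/-- supplements of a nilpotent normal subgroup stay in the formation -/
theorem supplement {F : Cls} (hF : IsForm F) {X : Type} [Group X] [Finite X]
    (Q : Subgroup X) [Q.Normal] {c : ℕ} (hc : Q.lowerCentralSeries c = ⊥) (hX : F X)
    (U : Subgroup X) (hU : U ⊔ Q = ⊤) : F U := by
  let S : Set (Finset (Fin (c + 1)) → X) :=
    {f | (∃ u ∈ U, f = fun _ => u) ∨ ∃ x, ∃ q ∈ Q, f = fun I => if x ∈ I then 1 else q}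
  have hS : Subgroup.closure S ≤ Subgroup.closure (gens (Fin (c + 1)) Q) := by
    rw [closure_le]
    rintro _ (⟨u, -, rfl⟩ | ⟨x, q, hq, rfl⟩)
    · exact Subgroup.subset_closure (Or.inl ⟨u, rfl⟩)
    · have := mul_mem (Subgroup.subset_closure (k := gens (Fin (c + 1)) Q) (Or.inl ⟨q, rfl⟩))
        (Subgroup.subset_closure (Or.inr ⟨x, q⁻¹, inv_mem hq, rfl⟩))
      refine (congrArg (· ∈ Subgroup.closure _) ?_).mp this
      funext I
      by_cases h : x ∈ I <;> simp [h]
  have hC : F (Subgroup.closure S) := by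
    refine mem_of_subdirect hF ⟨X, inferInstance, inferInstance, hX⟩
      (J := {I : Finset (Fin (c + 1)) // I ≠ Finset.univ})
      (fun j => evAt (Subgroup.closure S) j.1) (fun j => ?_) ?_
    · refine mem_range_of_surj hF _ ?_ hX
      rw [← MonoidHom.range_eq_top, range_evAt, eq_top_iff, ← hU]
      refine sup_le (fun u hu => Subgroup.subset_closure ⟨_, Or.inl ⟨u, hu, rfl⟩, rfl⟩)
        fun q hq => ?_
      obtain ⟨x, hx⟩ : ∃ x, x ∉ j.1 := by
        by_contra h
        exact j.2 (Finset.eq_univ_of_forall (by simpa using h))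
      exact Subgroup.subset_closure ⟨_, Or.inr ⟨x, q, hq, rfl⟩, if_neg hx⟩
    · rintro ⟨f, hf⟩ h
      have h1 : ∀ I, I ≠ Finset.univ → f I = 1 := fun I hI => h ⟨I, hI⟩
      apply Subtype.ext
      funext I
      by_cases hI : I = Finset.univ
      · rw [hI]
        exact cube_top hc (hS hf) (by simp) fun B hB => h1 B hB.ne
      · exact h1 I hI
  have hr : (evAt (Subgroup.closure S) Finset.univ).range = U := by
    rw [range_evAt]
    apply le_antisymm
    · rw [closure_le]
      rintro _ ⟨_, ⟨u, hu, rfl⟩ | ⟨x, q, -, rfl⟩, rfl⟩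
      · exact hu
      · simp
    · exact fun u hu => Subgroup.subset_closure ⟨_, Or.inl ⟨u, hu, rfl⟩, rfl⟩
  rw [← hr]
  exact hF.quot _ _ hC _ (MonoidHom.rangeRestrict_surjective _)

/-- a group lies in a formation once its small supplements do -/
theorem of_small {E : Cls} (hE : IsForm E) {X : Type} [Group X] [Finite X]
    (Q : Subgroup X) [Q.Normal] {c : ℕ} (hc : Q.lowerCentralSeries c = ⊥) (U : Set X)
    (hU : Subgroup.closure U ⊔ Q = ⊤)
    (hs : ∀ I : Finset Q, I.card ≤ c → E (Subgroup.closure (U ∪ (↑) '' (I : Set Q)))) : E X := by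
  classical
  let S : Set (Finset Q → X) :=
    {f | (∃ u ∈ U, f = fun _ => u) ∨ ∃ x : Q, f = fun I => if x ∈ I then (x : X) else 1}
  have hS : Subgroup.closure S ≤ Subgroup.closure (gens Q Q) := by
    apply Subgroup.closure_mono
    rintro _ (⟨u, -, rfl⟩ | ⟨x, rfl⟩)
    · exact Or.inl ⟨u, rfl⟩
    · exact Or.inr ⟨x, x, x.2, rfl⟩
  have hr : ∀ I : Finset Q, (evAt (Subgroup.closure S) I).range =
      Subgroup.closure (U ∪ (↑) '' (I : Set Q)) := by
    intro I
    rw [range_evAt]
    apply le_antisymm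
    · rw [closure_le]
      rintro _ ⟨f, ⟨u, hu, rfl⟩ | ⟨x, rfl⟩, rfl⟩
      · exact Subgroup.subset_closure (Or.inl hu)
      · show (if x ∈ I then (x : X) else 1) ∈ Subgroup.closure _
        split_ifs with h
        · exact Subgroup.subset_closure (Or.inr ⟨x, h, rfl⟩)
        · exact one_mem _
    · rw [closure_le]
      rintro _ (hx | ⟨x, hx, rfl⟩)
      · exact Subgroup.subset_closure ⟨_, Or.inl ⟨_, hx, rfl⟩, rfl⟩
      · exact Subgroup.subset_closure ⟨_, Or.inr ⟨x, rfl⟩, if_pos hx⟩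
  have hC : E (Subgroup.closure S) := by
    refine mem_of_subdirect hE ⟨_, inferInstance, inferInstance, hs ∅ (by simp)⟩
      (J := {I : Finset Q // I.card ≤ c}) (fun j => evAt (Subgroup.closure S) j.1)
      (fun j => ?_) ?_
    · rw [hr]; exact hs _ j.2
    · rintro ⟨f, hf⟩ h
      apply Subtype.ext
      funext I
      show f I = 1
      induction I using Finset.strongInduction with
      | H I ih =>
        by_cases hI : I.card ≤ c
        · exact h ⟨I, hI⟩
        · exact cube_top hc (hS hf) (not_le.1 hI) ih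
  have : Fintype Q := Fintype.ofFinite Q
  refine hE.quot _ X hC (evAt (Subgroup.closure S) Finset.univ) ?_
  rw [← MonoidHom.range_eq_top, hr, eq_top_iff, ← hU]
  exact sup_le (Subgroup.closure_mono Set.subset_union_left) fun x hx =>
    Subgroup.subset_closure (Or.inr ⟨⟨x, hx⟩, by simp, rfl⟩)

theorem exists_enum {α : Type} (a : α) {c : ℕ} (I : Finset α) (hI : I.card ≤ c) :
    ∃ f : Fin c → α, (∀ x ∈ I, ∃ i, f i = x) ∧ ∀ i, f i ∈ I ∨ f i = a := by
  refine ⟨fun i => if h : i.1 < I.card then I.equivFin.symm ⟨i, h⟩ else a, fun x hx => ?_,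
    fun i => ?_⟩
  · exact ⟨⟨I.equivFin ⟨x, hx⟩, (I.equivFin ⟨x, hx⟩).2.trans_le hI⟩, by simp⟩
  · by_cases h : i.1 < I.card
    · exact Or.inl (by simp [h])
    · exact Or.inr (by simp [h])

theorem of_gen {J : Type} {c : ℕ} {F E : Cls} (hF : IsForm F) (hE : IsForm E)
    (h : SmallLe (J ⊕ Fin c) F E) {X : Type} [Group X] [Finite X] (hX : F X) (Q : Subgroup X)
    [Q.Normal] (hc : Q.lowerCentralSeries c = ⊥) (u : J → X)
    (hu : Subgroup.closure (Set.range u) ⊔ Q = ⊤) : E X := by
  refine of_small hE Q hc _ hu fun I hI => ?_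
  have hV : F (Subgroup.closure (Set.range u ∪ (↑) '' (I : Set Q))) := by
    refine supplement hF Q hc hX _ ?_
    rw [eq_top_iff, ← hu]
    exact sup_le_sup_right (Subgroup.closure_mono Set.subset_union_left) _
  obtain ⟨f, h1, h2⟩ := exists_enum 1 I hI
  let u' : J ⊕ Fin c → Subgroup.closure (Set.range u ∪ (↑) '' (I : Set Q)) := fun j =>
    match j with
    | .inl j => ⟨u j, Subgroup.subset_closure (Or.inl ⟨j, rfl⟩)⟩
    | .inr i => ⟨f i, (h2 i).elim (fun h => Subgroup.subset_closure (Or.inr ⟨_, h, rfl⟩))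
        fun h => by rw [h]; exact one_mem _⟩
  refine h _ u' ?_ hV
  rw [eq_top_iff, ← Subgroup.closure_closure_coe_preimage]
  apply Subgroup.closure_mono
  rintro ⟨x, hx⟩ (⟨j, h⟩ | ⟨y, hy, h⟩)
  · exact ⟨.inl j, Subtype.ext h⟩
  · obtain ⟨i, rfl⟩ := h1 y hy
    exact ⟨.inr i, Subtype.ext h⟩

theorem res_le_gen {J : Type} {c : ℕ} {F E : Cls} (hF : IsForm F) (hE : IsForm E)
    (hne : ∃ (X : Type) (inst : Group X), Finite X ∧ @F X inst)
    (h : SmallLe (J ⊕ Fin c) F E) {X : Type} [Group X] [Finite X] (Q : Subgroup X)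
    [hQ : Q.Normal] (hc : Q.lowerCentralSeries c = ⊥) (u : J → X)
    (hu : Subgroup.closure (Set.range u) ⊔ Q = ⊤) : res E X ≤ res F X := by
  obtain ⟨hn, hX⟩ := good_res hF hne X
  have : (Q.map (QuotientGroup.mk' (res F X))).Normal := hQ.map _ (QuotientGroup.mk'_surjective _)
  refine sInf_le ⟨hn, of_gen hF hE h hX (Q.map (QuotientGroup.mk' (res F X)))
    (by rw [← map_lowerCentralSeries, hc, Subgroup.map_bot])
    (fun j => QuotientGroup.mk' _ (u j)) ?_⟩
  have := congrArg (Subgroup.map (QuotientGroup.mk' (res F X))) hu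
  rw [Subgroup.map_sup, MonoidHom.map_closure, ← Set.range_comp,
    Subgroup.map_top_of_surjective _ (QuotientGroup.mk'_surjective _)] at this
  exact this

end Pool.Agent.P.MP_230bb5_al.NS
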