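import Mathlib

set_option autoImplicit false

namespace Pool.Agent.P.MP_230bb5_al.NS

open Function

section word

variable {ι : Type} [DecidableEq ι]

/-- incomplete labellings by spare labels -/
abbrev Pat (ι : Type) : Type := ι → Option ℕ

def Valid (n : ℕ) (ρ : Pat ι) : Prop :=
  (∀ i j a, ρ i = some a → ρ j = some a → i = j) ∧ ∀ i a, ρ i = some a → a < n

def fill (p : ι × ℕ) (ρ : Pat ι) : Pat ι := update ρ p.1 (some ((ρ p.1).getD p.2))

def nn (J : Finset ι) (ρ : Pat ι) : Finset ι := J.filter (ρ · = none)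

def Lc {V : Type} (J : Finset ι) (θ : Pat ι → V) : Prop :=
  ∀ ρ ρ', (∀ i ∈ J, ρ i = ρ' i) → θ ρ = θ ρ'

/-- iterated differences -/
def dd {V : Type} [Group V] (θ : Pat ι → V) : List (ι × ℕ) → Pat ι → V
  | [], ρ => θ ρ
  | p :: l, ρ => dd θ l ρ * (dd θ l (fill p ρ))⁻¹

theorem nn_fill (J : Finset ι) (p : ι × ℕ) (ρ : Pat ι) : nn J (fill p ρ) = (nn J ρ).erase p.1 := by
  ext i
  by_cases h : i = p.1
  · simp [nn, fill, h]
  · simp [nn, fill, h]

variable {V : Type} [Group V] {θ : Pat ι → V} {J : Finset ι}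

theorem map_dd {V' : Type} [Group V'] (φ : V →* V') : ∀ (l : List (ι × ℕ)) (ρ : Pat ι),
    φ (dd θ l ρ) = dd (fun τ => φ (θ τ)) l ρ
  | [], _ => rfl
  | p :: l, ρ => by simp only [dd, map_mul, map_inv, map_dd φ l]

theorem Lc.dd (h : Lc J θ) : ∀ l : List (ι × ℕ), Lc J (dd θ l)
  | [] => h
  | p :: l => fun ρ ρ' e => by
    by_cases hp : p.1 ∈ J
    · rw [NS.dd, NS.dd, h.dd l ρ ρ' e, h.dd l (fill p ρ) (fill p ρ') fun i hi => ?_]
      by_cases hi' : i = p.1
      · simp [fill, hi', e _ hp]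
      · simp [fill, hi', e _ hi]
    · rw [NS.dd, NS.dd, h.dd l ρ ρ' e, h.dd l (fill p ρ) (fill p ρ') fun i hi => ?_]
      have hi' : i ≠ p.1 := fun h => hp (h ▸ hi)
      simp [fill, hi', e _ hi]

theorem Lc.dd_out (h : Lc J θ) {a : ι} : ∀ (l : List (ι × ℕ)) (ρ : Pat ι), a ∈ l.map Prod.fst →
    a ∉ nn J ρ → NS.dd θ l ρ = 1
  | [], _, ha, _ => by simp at ha
  | p :: l, ρ, ha, hn => by
    rw [List.map_cons, List.mem_cons] at ha
    rcases ha with rfl | ha
    · rw [NS.dd, h.dd l (fill p ρ) ρ fun i hi => ?_, mul_inv_cancel]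
      by_cases hi' : i = p.1
      · subst hi'
        obtain ⟨b, hb⟩ := Option.ne_none_iff_exists'.1 fun h => hn (Finset.mem_filter.2 ⟨hi, h⟩)
        simp [fill, hb]
      · simp [fill, hi']
    · rw [NS.dd, h.dd_out l ρ ha hn, h.dd_out l _ ha fun h => hn ?_, mul_inv_cancel]
      rw [nn_fill] at h
      exact Finset.mem_of_mem_erase h

theorem dd_one {A : Finset ι → Prop} (hA : ∀ B B', B' ⊆ B → A B → A B')
    (h : ∀ ρ, A (nn J ρ) → θ ρ = 1) : ∀ (l : List (ι × ℕ)) (ρ : Pat ι), A (nn J ρ) → dd θ l ρ = 1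
  | [], ρ, h1 => h ρ h1
  | p :: l, ρ, h1 => by
    rw [dd, dd_one hA h l ρ h1, dd_one hA h l _ (hA _ _ ?_ h1), mul_inv_cancel]
    rw [nn_fill]
    exact Finset.erase_subset _ _

theorem dd_top {ρ : Pat ι} (h : ∀ τ, (nn J τ).card < (nn J ρ).card → θ τ = 1) :
    ∀ l : List (ι × ℕ), (∀ p ∈ l, p.1 ∈ nn J ρ) → dd θ l ρ = θ ρ
  | [], _ => rfl
  | p :: l, hl => by
    rw [dd, dd_top h l fun q hq => hl q (List.mem_cons_of_mem _ hq),
      dd_one (A := fun B => B.card < (nn J ρ).card)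
        (fun _ _ hB => (Finset.card_le_card hB).trans_lt) h l, inv_one, mul_one]
    rw [nn_fill]
    exact Finset.card_erase_lt_of_mem (hl p List.mem_cons_self)

theorem dd_mem {K : Subgroup V} {n : ℕ} (h : ∀ ρ, Valid n ρ → θ ρ ∈ K) :
    ∀ (l : List (ι × ℕ)) (ρ : Pat ι), (l.map Prod.snd).Nodup → Valid n ρ →
      (∀ p ∈ l, p.2 < n ∧ ∀ i, ρ i ≠ some p.2) → dd θ l ρ ∈ K
  | [], ρ, _, hρ, _ => h ρ hρ
  | p :: l, ρ, hl, hρ, hp => by
    rw [List.map_cons, List.nodup_cons] at hl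
    obtain ⟨h1, h2⟩ := hp p List.mem_cons_self
    have key : ∀ i a, fill p ρ i = some a → ρ i = some a ∨ (i = p.1 ∧ a = p.2) := by
      intro i a hi
      by_cases hi' : i = p.1
      · subst hi'
        cases hρ' : ρ p.1 with
        | none => exact Or.inr ⟨rfl, by simpa [fill, hρ'] using hi.symm⟩
        | some b => exact Or.inl (by simpa [fill, hρ'] using hi)
      · exact Or.inl (by simpa [fill, hi'] using hi)
    refine mul_mem (dd_mem h l ρ hl.2 hρ fun q hq => hp q (List.mem_cons_of_mem _ hq))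
      (inv_mem (dd_mem h l _ hl.2 ⟨fun i j a hi hj => ?_, fun i a hi => ?_⟩ fun q hq =>
        ⟨(hp q (List.mem_cons_of_mem _ hq)).1, fun i hi => ?_⟩))
    · rcases key i a hi with k1 | ⟨k1, k2⟩ <;> rcases key j a hj with k3 | ⟨k3, k4⟩
      · exact hρ.1 i j a k1 k3
      · exact absurd (k4 ▸ k1) (h2 i)
      · exact absurd (k2 ▸ k3) (h2 j)
      · rw [k1, k3]
    · rcases key i a hi with k1 | ⟨-, k2⟩
      · exact hρ.2 i a k1
      · exact k2 ▸ h1
    · rcases key i _ hi with k1 | ⟨-, k2⟩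
      · exact (hp q (List.mem_cons_of_mem _ hq)).2 i k1
      · exact hl.1 (k2 ▸ List.mem_map_of_mem hq)

/-- words in valid patterns -/
def Val (ι : Type) (n : ℕ) : Subgroup (FreeGroup (Pat ι)) :=
  Subgroup.closure (FreeGroup.of '' {ρ | Valid n ρ})

omit [DecidableEq ι] in
theorem Val.mono {n n' : ℕ} (h : n ≤ n') : Val ι n ≤ Val ι n' :=
  Subgroup.closure_mono (Set.image_mono fun _ hρ => ⟨hρ.1, fun i a hi => (hρ.2 i a hi).trans_le h⟩)

omit [DecidableEq ι] in
theorem Val.lift_mem {n : ℕ} {w : FreeGroup (Pat ι)} (hw : w ∈ Val ι n) {K : Subgroup V}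
    (h : ∀ ρ, Valid n ρ → θ ρ ∈ K) : FreeGroup.lift θ w ∈ K := by
  have : Val ι n ≤ K.comap (FreeGroup.lift θ) := by
    rw [Val, Subgroup.closure_le]
    rintro _ ⟨ρ, hρ, rfl⟩
    simpa using h ρ hρ
  exact this hw

omit [DecidableEq ι] in
theorem Val.lift_eq {n : ℕ} {w : FreeGroup (Pat ι)} (hw : w ∈ Val ι n) {θ' : Pat ι → V}
    (h : ∀ ρ, Valid n ρ → θ ρ = θ' ρ) : FreeGroup.lift θ w = FreeGroup.lift θ' w :=
  MonoidHom.eqOn_closure (by rintro _ ⟨ρ, hρ, rfl⟩; simpa using h ρ hρ) hw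

omit [DecidableEq ι] in
theorem map_lift {V' : Type} [Group V'] (φ : V →* V') (w : FreeGroup (Pat ι)) :
    φ (FreeGroup.lift θ w) = FreeGroup.lift (fun ρ => φ (θ ρ)) w :=
  DFunLike.congr_fun (show φ.comp (FreeGroup.lift θ) = FreeGroup.lift fun ρ => φ (θ ρ) by
    ext; simp) w

/-- the word dies when the patterns with holes in `A` die -/
def Dies (k : ℕ) (A : Finset ι → Prop) (w : FreeGroup (Pat ι)) : Prop :=
  ∀ J : Finset ι, J.card ≤ k → ∀ (V : Type) [CommGroup V] (θ : Pat ι → V), Lc J θ →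
    (∀ ρ, A (nn J ρ) → θ ρ = 1) → FreeGroup.lift θ w = 1

theorem decomp [Fintype ι] (k : ℕ) : ∀ (j n : ℕ) (u : FreeGroup (Pat ι)), u ∈ Val ι n →
    Dies k (fun B => B.card ≤ j) u → u ∈ Subgroup.closure
      {w | w ∈ Val ι (n + j * j) ∧ ∃ A : Finset ι, A.card ≤ j ∧ Dies k (· ⊆ A) w}
  | 0, n, u, hu, hd => Subgroup.subset_closure ⟨hu, ∅, le_rfl, fun J hJ V _ θ h1 h2 =>
      hd J hJ V θ h1 fun ρ h => h2 ρ (by rw [Finset.card_eq_zero.1 (Nat.le_zero.1 h)])⟩
  | j + 1, n, u, hu, hd => by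
    let w : Finset ι → FreeGroup (Pat ι) := fun A =>
      FreeGroup.lift (dd FreeGroup.of (A.toList.zipIdx n)) u
    have hw : ∀ (V : Type) [CommGroup V] (θ : Pat ι → V) A,
        FreeGroup.lift θ (w A) = FreeGroup.lift (dd θ (A.toList.zipIdx n)) u := by
      intro V _ θ A
      rw [map_lift]
      congr 2
      funext ρ
      simp [map_dd]
    have hm : ∀ (A : Finset ι) a, a ∈ (A.toList.zipIdx n).map Prod.fst ↔ a ∈ A := by simp
    have h1 : ∀ A : Finset ι, A.card = j + 1 → w A ∈ Val ι (n + (j + 1)) := fun A hA => by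
      refine Val.lift_mem hu fun ρ hρ => dd_mem (n := n + (j + 1))
        (fun τ hτ => Subgroup.subset_closure (Set.mem_image_of_mem _ hτ)) _ ρ (by simp [List.nodup_range'])
        ⟨hρ.1, fun i a hi => (hρ.2 i a hi).trans_le (by omega)⟩ fun p hp => ?_
      have := List.mem_zipIdx (x := p.1) (i := p.2) hp
      rw [Finset.length_toList, hA] at this
      exact ⟨this.2.1, fun i hi => absurd (hρ.2 i _ hi) (not_lt.2 this.1)⟩
    have out : ∀ {V : Type} [CommGroup V] {θ : Pat ι → V} {J : Finset ι}, Lc J θ →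
        ∀ A : Finset ι, A.card = j + 1 → ∀ ρ, (nn J ρ).card ≤ j + 1 → A ≠ nn J ρ →
        dd θ (A.toList.zipIdx n) ρ = 1 := fun h A hA ρ hρ hne => by
      obtain ⟨a, ha, ha'⟩ := Finset.not_subset.1 fun hs =>
        hne (Finset.eq_of_subset_of_card_le hs (hA ▸ hρ))
      exact h.dd_out _ ρ ((hm A a).2 ha) ha'
    have h2 : ∀ A : Finset ι, A.card = j + 1 → Dies k (· ⊆ A) (w A) := by
      intro A hA J hJ V _ θ k1 k2
      rw [hw]
      refine hd J hJ V _ (k1.dd _) fun ρ hρ => ?_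
      by_cases h : A = nn J ρ
      · exact dd_one (A := (· ⊆ A)) (fun _ _ h => h.trans) k2 _ ρ h.ge
      · exact out k1 A hA ρ hρ h
    let L := (Finset.powersetCard (j + 1) (Finset.univ : Finset ι)).toList
    have hL : ∀ A ∈ L, A.card = j + 1 := fun A hA => by simpa [L] using hA
    have h3 := decomp k j (n + (j + 1)) (u * ((L.map w).prod)⁻¹)
      (mul_mem (Val.mono (by omega) hu) (inv_mem (list_prod_mem fun x hx => by
        obtain ⟨A, hA, rfl⟩ := List.mem_map.1 hx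
        exact h1 A (hL A hA)))) (by
      intro J hJ V _ θ k1 k2
      have e : FreeGroup.lift θ (u * ((L.map w).prod)⁻¹) = FreeGroup.lift (fun ρ => θ ρ *
          (∏ A ∈ Finset.powersetCard (j + 1) Finset.univ, dd θ (A.toList.zipIdx n) ρ)⁻¹) u := by
        rw [map_mul, map_inv, map_list_prod, List.map_map, Finset.prod_map_toList]
        simp only [comp, hw]
        refine DFunLike.congr_fun (show FreeGroup.lift θ * (∏ A ∈ Finset.powersetCard (j + 1)
          Finset.univ, FreeGroup.lift (dd θ (A.toList.zipIdx n)))⁻¹ = _ from ?_) u |>.symm.trans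
          ?_ |>.symm
        · ext ρ
          simp [MonoidHom.finset_prod_apply]
        · simp [MonoidHom.finset_prod_apply]
      rw [e]
      refine hd J hJ V _ (fun ρ ρ' h => ?_) fun ρ hρ => ?_
      · rw [k1 ρ ρ' h, Finset.prod_congr rfl fun A _ => k1.dd _ ρ ρ' h]
      · rw [mul_inv_eq_one]
        rcases hρ.eq_or_lt with h | h
        · rw [Finset.prod_eq_single_of_mem (nn J ρ) (by simpa using h) fun A hA hne =>
            out k1 A (by simpa using hA) ρ hρ hne, dd_top (J := J) (fun τ hτ => k2 τ (by omega))]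
          intro p hp
          exact (hm _ _).1 (List.mem_map_of_mem hp)
        · rw [k2 ρ (by omega), Finset.prod_eq_one fun A hA => ?_]
          have hA' : A.card = j + 1 := by simpa using hA
          exact out k1 A hA' ρ hρ fun he => by rw [he] at hA'; omega)
    rw [← inv_mul_cancel_right u (L.map w).prod]
    refine mul_mem (Subgroup.closure_mono ?_ h3) (list_prod_mem fun x hx => ?_)
    · rintro x ⟨k1, A, k2, k3⟩
      exact ⟨Val.mono (by nlinarith) k1, A, by omega, k3⟩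
    · obtain ⟨A, hA, rfl⟩ := List.mem_map.1 hx
      exact Subgroup.subset_closure ⟨Val.mono (by nlinarith) (h1 A (hL A hA)), A, (hL A hA).le,
        h2 A (hL A hA)⟩

theorem decomp_top [Fintype ι] (k : ℕ) : FreeGroup.of (fun _ => none : Pat ι) ∈ Subgroup.closure
    {w | w ∈ Val ι (k * k) ∧ ∃ A : Finset ι, A.card ≤ k ∧ Dies k (· ⊆ A) w} := by
  have := decomp k k 0 (FreeGroup.of (fun _ => none : Pat ι))
    (Subgroup.subset_closure ⟨_, ⟨by simp, by simp⟩, rfl⟩) fun J hJ V _ θ _ h => by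
      rw [FreeGroup.lift_apply_of]
      exact h _ ((Finset.card_filter_le _ _).trans hJ)
  rwa [Nat.zero_add] at this

/-- two families that agree on the patterns with holes in `A` give the same value modulo
commutators -/
theorem Dies.comm {k n : ℕ} {A : Finset ι} {w : FreeGroup (Pat ι)} (hd : Dies k (· ⊆ A) w)
    (hw : w ∈ Val ι n) (hJ : J.card ≤ k) {P : Subgroup V} {f g : Pat ι → V}
    (hf : ∀ ρ, Valid n ρ → f ρ ∈ P ∧ g ρ ∈ P)
    (hl : ∀ ρ ρ', Valid n ρ → Valid n ρ' → (∀ i ∈ J, ρ i = ρ' i) → f ρ = f ρ' ∧ g ρ = g ρ')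
    (he : ∀ ρ, Valid n ρ → nn J ρ ⊆ A → f ρ = g ρ) :
    FreeGroup.lift f w * (FreeGroup.lift g w)⁻¹ ∈ ⁅P, P⁆ := by
  classical
  let r : Pat ι → Pat ι := fun ρ =>
    if h : ∃ τ, Valid n τ ∧ ∀ i ∈ J, ρ i = τ i then h.choose else fun _ => none
  have hr : ∀ ρ, Valid n (r ρ) := fun ρ => by
    simp only [r]
    split_ifs with h
    · exact h.choose_spec.1
    · exact ⟨by simp, by simp⟩
  have hr' : ∀ ρ, Valid n ρ → ∀ i ∈ J, ρ i = r ρ i := fun ρ hρ => by
    have h : ∃ τ, Valid n τ ∧ ∀ i ∈ J, ρ i = τ i := ⟨ρ, hρ, fun _ _ => rfl⟩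
    simp only [r, dif_pos h]
    exact h.choose_spec.2
  let f' : Pat ι → P := fun ρ => ⟨f (r ρ), (hf _ (hr ρ)).1⟩
  let g' : Pat ι → P := fun ρ => ⟨g (r ρ), (hf _ (hr ρ)).2⟩
  let θ : Pat ι → Abelianization P := fun ρ =>
    if ∃ τ, Valid n τ ∧ ∀ i ∈ J, ρ i = τ i then Abelianization.of (f' ρ * (g' ρ)⁻¹) else 1
  have h1 := hd J hJ _ θ (fun ρ ρ' h => by
      have e : (fun τ => Valid n τ ∧ ∀ i ∈ J, ρ i = τ i) =
          fun τ => Valid n τ ∧ ∀ i ∈ J, ρ' i = τ i := by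
        funext τ
        rw [forall₂_congr fun i hi => by rw [h i hi]]
      simp only [θ, f', g', r, e]) fun ρ h => by
    simp only [θ]
    split_ifs with h2
    · have : f' ρ = g' ρ := Subtype.ext (he _ (hr ρ) fun i hi => h (by
        rw [nn, Finset.mem_filter] at hi ⊢
        simp only [r, dif_pos h2] at hi
        exact ⟨hi.1, (h2.choose_spec.2 i hi.1).trans hi.2⟩))
      simp [this]
    · rfl
  have h2 : FreeGroup.lift θ w =
      Abelianization.of (FreeGroup.lift f' w * (FreeGroup.lift g' w)⁻¹) := by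
    rw [Val.lift_eq hw (θ' := fun ρ => Abelianization.of (f' ρ) * (Abelianization.of (g' ρ))⁻¹)
      fun ρ hρ => by simp only [θ]; rw [if_pos ⟨ρ, hρ, fun _ _ => rfl⟩, map_mul, map_inv]]
    refine DFunLike.congr_fun (show _ = Abelianization.of.comp (FreeGroup.lift f') *
      (Abelianization.of.comp (FreeGroup.lift g'))⁻¹ by ext; simp) w |>.trans (by simp)
  rw [h2, ← MonoidHom.mem_ker, Abelianization.ker_of] at h1
  have h3 := Subgroup.mem_map_of_mem P.subtype h1
  rw [Subgroup.map_subtype_commutator, map_mul, map_inv, map_lift, map_lift] at h3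
  rwa [Val.lift_eq hw (θ := f) fun ρ hρ => (hl _ _ hρ (hr ρ) (hr' ρ hρ)).1,
    Val.lift_eq hw (θ := g) fun ρ hρ => (hl _ _ hρ (hr ρ) (hr' ρ hρ)).2]

end word

end Pool.Agent.P.MP_230bb5_al.NS
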