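import Mathlib
import Pool.Agent.P.MP_230bb5_al.NWord
import Pool.Agent.P.MP_230bb5_al.NCube

set_option autoImplicit false

namespace Pool.Agent.P.MP_230bb5_al.NS

open Pool.Agent.P.MP_7ab5f9_al Function

section glob

variable {G Y ι Ω : Type} [Group G] [DecidableEq ι] [DecidableEq Ω] (J : Y → Finset ι)

def Dom (C : Finset Ω) (σ : ι → Ω) : Prop := Injective σ ∧ ∀ i, σ i ∉ C

def Fam (P : Subgroup G) (C : Finset Ω) (Φ : (ι → Ω) → Y → G) : Prop :=
  (∀ σ, Dom C σ → ∀ y, Φ σ y ∈ P) ∧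
    ∀ σ τ, Dom C σ → Dom C τ → ∀ y, (∀ i ∈ J y, σ i = τ i) → Φ σ y = Φ τ y

def Agree (C ω : Finset Ω) (Φ Ψ : (ι → Ω) → Y → G) : Prop :=
  ∀ σ, Dom C σ → ∀ y, (∀ i ∈ J y, σ i ∈ ω) → Φ σ y = Ψ σ y

theorem exists_fresh [Fintype Ω] [Nonempty Ω] (B : Finset Ω) (M : ℕ)
    (h : B.card + M ≤ Fintype.card Ω) :
    ∃ e : ℕ → Ω, (∀ a < M, ∀ b < M, e a = e b → a = b) ∧ ∀ a < M, e a ∉ B := by
  obtain ⟨S, hS, hc⟩ := Finset.exists_subset_card_eq (s := Bᶜ) (n := M)
    (by rw [Finset.card_compl]; omega)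
  refine ⟨fun a => if h : a < S.card then S.equivFin.symm ⟨a, h⟩ else Classical.arbitrary Ω,
    fun a ha b hb he => ?_, fun a ha => ?_⟩
  · simp only [dif_pos (hc ▸ ha), dif_pos (hc ▸ hb)] at he
    simpa using S.equivFin.symm.injective (Subtype.ext he)
  · simp only [dif_pos (hc ▸ ha)]
    exact Finset.mem_compl.1 (hS (Subtype.prop _))

theorem loc_glob [Fintype ι] [Fintype Ω] [Nonempty Ω] {k : ℕ} (hJ : ∀ y, (J y).card ≤ k)
    (K : Subgroup (Y → G)) : ∀ (r : ℕ) (P : Subgroup G), (fun H => ⁅H, H⁆)^[r] P = ⊥ →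
    ∀ C : Finset Ω, Fintype.card ι + C.card + r * (k * k + k) ≤ Fintype.card Ω →
    ∀ Φ, Fam J P C Φ → (∀ ω : Finset Ω, ω.card ≤ r * (k * k + k) →
      ∃ Ψ, Fam J P C Ψ ∧ (∀ σ, Dom C σ → Ψ σ ∈ K) ∧ Agree J C ω Φ Ψ) →
    ∀ σ, Dom C σ → Φ σ ∈ K
  | 0, P, hP, C, _, Φ, hΦ, _, σ, hσ => by
    have : Φ σ = 1 := funext fun y => by
      have := hΦ.1 σ hσ y
      rwa [show P = ⊥ from hP] at this
    rw [this]
    exact one_mem _
  | r + 1, P, hP, C, hC, Φ, hΦ, hl, σ0, h0 => by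
    rw [Nat.succ_mul] at hC hl
    obtain ⟨e, e1, e2⟩ := exists_fresh (C ∪ Finset.univ.image σ0) (k * k + k) (by
      have := Finset.card_union_le C (Finset.univ.image σ0)
      have := Finset.card_image_le (s := Finset.univ) (f := σ0)
      rw [Finset.card_univ] at this
      omega)
    have e3 : ∀ a < k * k + k, e a ∉ C := fun a ha h => e2 a ha (Finset.mem_union_left _ h)
    have e4 : ∀ a < k * k + k, ∀ i, e a ≠ σ0 i := fun a ha i h =>
      e2 a ha (Finset.mem_union_right _ (by simp [h]))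
    suffices h : ∀ w ∈ Val ι (k * k), ∀ A : Finset ι, A.card ≤ k → Dies k (· ⊆ A) w →
        FreeGroup.lift (fun ρ : Pat ι => Φ fun i => (ρ i).elim (σ0 i) e) w ∈ K by
      have : Subgroup.closure {w | w ∈ Val ι (k * k) ∧ ∃ A : Finset ι, A.card ≤ k ∧
          Dies k (· ⊆ A) w} ≤ K.comap
          (FreeGroup.lift fun ρ : Pat ι => Φ fun i => (ρ i).elim (σ0 i) e) := by
        rw [Subgroup.closure_le]
        rintro w ⟨h1, A, h2, h3⟩
        exact h w h1 A h2 h3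
      simpa using this (decomp_top k)
    intro w hw A hA hd
    let ω1 : Finset Ω := (Finset.range (k * k)).image e ∪ A.image σ0
    have c1 : ω1.card ≤ k * k + k := (Finset.card_union_le _ _).trans (add_le_add
      (Finset.card_image_le.trans (by simp)) (Finset.card_image_le.trans hA))
    have m1 : ∀ a < k * k, e a ∈ ω1 := fun a ha =>
      Finset.mem_union_left _ (Finset.mem_image_of_mem _ (Finset.mem_range.2 ha))
    have m2 : ∀ i ∈ A, σ0 i ∈ ω1 := fun i hi =>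
      Finset.mem_union_right _ (Finset.mem_image_of_mem _ hi)
    let τ : Pat ι → (ι → Ω) → ι → Ω := fun ρ σ i => (ρ i).elim (if i ∈ A then σ0 i else σ i) e
    have hτ : ∀ ρ σ i, Valid (k * k) ρ → (∃ a < k * k, ρ i = some a ∧ τ ρ σ i = e a) ∨
        (ρ i = none ∧ i ∈ A ∧ τ ρ σ i = σ0 i) ∨ (i ∉ A ∧ ρ i = none ∧ τ ρ σ i = σ i) := by
      intro ρ σ i hρ
      cases h : ρ i with
      | none => by_cases hi : i ∈ A <;> simp [τ, h, hi]
      | some a => exact Or.inl ⟨a, hρ.2 i a h, rfl, by simp [τ, h]⟩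
    have dτ : ∀ ρ σ, Valid (k * k) ρ → Dom (C ∪ ω1) σ → Dom C (τ ρ σ) := by
      intro ρ σ hρ hσ
      have n1 : ∀ i, σ i ∉ ω1 := fun i h => hσ.2 i (Finset.mem_union_right _ h)
      refine ⟨fun i j h => ?_, fun i => ?_⟩
      · rcases hτ ρ σ i hρ with ⟨a, a1, a2, a3⟩ | ⟨-, a2, a3⟩ | ⟨-, -, a3⟩ <;>
          rcases hτ ρ σ j hρ with ⟨b, b1, b2, b3⟩ | ⟨-, b2, b3⟩ | ⟨-, -, b3⟩ <;>
          rw [a3, b3] at h
        · exact hρ.1 i j a a2 (e1 a (by omega) b (by omega) h ▸ b2)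
        · exact absurd h (e4 a (by omega) j)
        · exact absurd (h ▸ m1 a a1) (n1 j)
        · exact absurd h.symm (e4 b (by omega) i)
        · exact h0.1 h
        · exact absurd (h ▸ m2 i a2) (n1 j)
        · exact absurd (h ▸ m1 b b1) (n1 i)
        · exact absurd (h ▸ m2 j b2) (n1 i)
        · exact hσ.1 h
      · rcases hτ ρ σ i hρ with ⟨a, a1, -, a3⟩ | ⟨-, -, a3⟩ | ⟨-, -, a3⟩ <;> rw [a3]
        · exact e3 a (by omega)
        · exact h0.2 i
        · exact fun h => hσ.2 i (Finset.mem_union_left _ h)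
    let W : ((ι → Ω) → Y → G) → (ι → Ω) → Y → G := fun Θ σ =>
      FreeGroup.lift (fun ρ => Θ (τ ρ σ)) w
    have hW : ∀ Θ σ y, W Θ σ y = FreeGroup.lift (fun ρ => Θ (τ ρ σ) y) w := fun Θ σ y =>
      map_lift (Pi.evalMonoidHom (fun _ => G) y) w
    have WK : ∀ Θ, (∀ σ, Dom C σ → Θ σ ∈ K) → ∀ σ, Dom (C ∪ ω1) σ → W Θ σ ∈ K :=
      fun Θ h σ hσ => Val.lift_mem hw fun ρ hρ => h _ (dτ ρ σ hρ hσ)
    obtain ⟨Φ1, f1, k1, a1⟩ := hl ω1 (by omega)
    have fam : ∀ Θ, Fam J P C Θ → Agree J C ω1 Θ Φ1 →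
        Fam J ⁅P, P⁆ (C ∪ ω1) fun σ => W Θ σ * (W Φ1 σ)⁻¹ := by
      intro Θ hΘ ha
      refine ⟨fun σ hσ y => ?_, fun σ σ' hσ hσ' y h => ?_⟩
      · simp only [Pi.mul_apply, Pi.inv_apply, hW]
        refine hd.comm hw (hJ y) (fun ρ hρ => ⟨hΘ.1 _ (dτ ρ σ hρ hσ) y, f1.1 _ (dτ ρ σ hρ hσ) y⟩)
          (fun ρ ρ' hρ hρ' h => ?_) fun ρ hρ h => ha _ (dτ ρ σ hρ hσ) y fun i hi => ?_
        · have : ∀ i ∈ J y, τ ρ σ i = τ ρ' σ i := fun i hi => by simp only [τ, h i hi]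
          exact ⟨hΘ.2 _ _ (dτ ρ σ hρ hσ) (dτ ρ' σ hρ' hσ) y this,
            f1.2 _ _ (dτ ρ σ hρ hσ) (dτ ρ' σ hρ' hσ) y this⟩
        · rcases hτ ρ σ i hρ with ⟨a, a1, -, a3⟩ | ⟨-, a2, a3⟩ | ⟨a1, a2, -⟩
          · exact a3 ▸ m1 a a1
          · exact a3 ▸ m2 i a2
          · exact absurd (h (Finset.mem_filter.2 ⟨hi, a2⟩)) a1
      · have : ∀ ρ, ∀ i ∈ J y, τ ρ σ i = τ ρ σ' i := fun ρ i hi => by simp only [τ, h i hi]
        simp only [Pi.mul_apply, Pi.inv_apply, hW]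
        rw [Val.lift_eq hw fun ρ hρ => hΘ.2 _ _ (dτ ρ σ hρ hσ) (dτ ρ σ' hρ hσ') y (this ρ),
          Val.lift_eq hw fun ρ hρ => f1.2 _ _ (dτ ρ σ hρ hσ) (dτ ρ σ' hρ hσ') y (this ρ)]
    let σ1 : ι → Ω := fun i => if h : i ∈ A then e (k * k + A.equivFin ⟨i, h⟩) else σ0 i
    have b1 : ∀ (i) (h : i ∈ A), k * k + (A.equivFin ⟨i, h⟩ : ℕ) < k * k + k := fun i h =>
      Nat.add_lt_add_left ((A.equivFin ⟨i, h⟩).2.trans_le hA) _
    have d1 : Dom (C ∪ ω1) σ1 := by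
      refine ⟨fun i j h => ?_, fun i h => ?_⟩
      · simp only [σ1] at h
        split_ifs at h with hi hj hj
        · have := e1 _ (b1 i hi) _ (b1 j hj) h
          exact congrArg Subtype.val (A.equivFin.injective (a₁ := ⟨i, hi⟩) (a₂ := ⟨j, hj⟩)
            (Fin.ext (by omega)))
        · exact absurd h (e4 _ (b1 i hi) j)
        · exact absurd h.symm (e4 _ (b1 j hj) i)
        · exact h0.1 h
      · simp only [σ1, ω1, Finset.mem_union, Finset.mem_image, Finset.mem_range] at h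
        split_ifs at h with hi
        · rcases h with h | ⟨a, ha, h⟩ | ⟨j, -, h⟩
          · exact e3 _ (b1 i hi) h
          · have := e1 _ (by omega) _ (b1 i hi) h
            omega
          · exact e4 _ (b1 i hi) j h.symm
        · rcases h with h | ⟨a, ha, h⟩ | ⟨j, hj, h⟩
          · exact h0.2 i h
          · exact e4 a (by omega) i h
          · exact hi (h0.1 h ▸ hj)
    have := loc_glob hJ K r ⁅P, P⁆ hP (C ∪ ω1)
      (by have := Finset.card_union_le C ω1; omega) _ (fam Φ hΦ a1) (fun ω hω => by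
        obtain ⟨Ψ, f0, k0, a0⟩ := hl (ω ∪ ω1) (by have := Finset.card_union_le ω ω1; omega)
        refine ⟨_, fam Ψ f0 fun σ hσ y h => ?_, fun σ hσ =>
          mul_mem (WK Ψ k0 σ hσ) (inv_mem (WK Φ1 k1 σ hσ)), fun σ hσ y h => ?_⟩
        · rw [← a0 σ hσ y fun i hi => Finset.mem_union_right _ (h i hi), a1 σ hσ y h]
        · simp only [Pi.mul_apply, hW]
          rw [Val.lift_eq hw fun ρ hρ => a0 _ (dτ ρ σ hρ hσ) y fun i hi => ?_]
          rcases hτ ρ σ i hρ with ⟨a, a1, -, a3⟩ | ⟨-, a2, a3⟩ | ⟨-, -, a3⟩ <;> rw [a3]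
          · exact Finset.mem_union_right _ (m1 a a1)
          · exact Finset.mem_union_right _ (m2 i a2)
          · exact Finset.mem_union_left _ (h i hi)) σ1 d1
    have h2 := mul_mem this (WK Φ1 k1 σ1 d1)
    rw [inv_mul_cancel_right] at h2
    refine (congrArg (· ∈ K) ?_).mp h2
    simp only [W]
    congr 2
    funext ρ
    congr 1
    funext i
    by_cases hi : i ∈ A <;> simp [τ, σ1, hi]

end glob

theorem iter_le_lcs {G : Type} [Group G] (P : Subgroup G) : ∀ c : ℕ,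
    (fun H => ⁅H, H⁆)^[c] P ≤ P.lowerCentralSeries c
  | 0 => le_rfl
  | c + 1 => by
    rw [iterate_succ_apply', Subgroup.lowerCentralSeries_succ]
    exact Subgroup.commutator_mono (iter_le_lcs P c)
      ((iter_le_lcs P c).trans (P.lowerCentralSeries_antitone (Nat.zero_le c)))

theorem lcs_mono {G : Type} [Group G] {P Q : Subgroup G} (h : P ≤ Q) : ∀ c : ℕ,
    P.lowerCentralSeries c ≤ Q.lowerCentralSeries c
  | 0 => h
  | c + 1 => Subgroup.commutator_mono (lcs_mono h c) h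

section sym

variable {G D Y ι T : Type} [Group G] [Group D]

open Classical in
/-- a generator placed at the label `j` -/
noncomputable def hat {Ω : Type} (e : ι → T → D) (j : Ω) (c : T) : (ι → Ω) → D := fun σ =>
  if h : ∃ i, σ i = j then e h.choose c else 1

theorem hat_eq {Ω : Type} (e : ι → T → D) {σ : ι → Ω} (hσ : Injective σ) (i : ι) (c : T) :
    hat e (σ i) c σ = e i c := by
  have h : ∃ i', σ i' = σ i := ⟨i, rfl⟩
  rw [hat, dif_pos h, hσ h.choose_spec]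

theorem res_le_res [Finite G] [Finite D] [Finite Y] [Finite ι] (ev : Y → D →* G)
    (hsep : Injective (MonoidHom.pi ev)) (P : Subgroup G) [hP : P.Normal] {c k : ℕ}
    (hc : P.lowerCentralSeries c = ⊥) (J : Y → Finset ι) (hJ : ∀ y, (J y).card ≤ k)
    (e : ι → T → D) (he : ∀ i t y, i ∉ J y → ev y (e i t) = 1)
    (hg : Subgroup.closure ({d | ∀ y, ev y d ∈ P} ∪ Set.range (uncurry e)) = ⊤)
    {F F' : Cls} (hF : IsForm F) (hF' : IsForm F')
    (hne : ∃ (X : Type) (inst : Group X), Finite X ∧ @F X inst)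
    (h : SmallLe ((Fin (c * (k * k + k)) × T) ⊕ Fin c) F F')
    (h1 : ∀ d ∈ res F D, ∀ y, ev y d ∈ P) (h2 : ∀ d ∈ res F' D, ∀ y, ev y d ∈ P) :
    res F' D ≤ res F D := by
  classical
  have : Fintype ι := Fintype.ofFinite ι
  have hne' := h.ne hF hne
  let Ω := ι ⊕ Fin (c * (k * k + k) + 1)
  let big : Subgroup ((ι → Ω) → D) := Subgroup.closure
    {g | (∃ q, (∀ y, ev y q ∈ P) ∧ g = fun _ => q) ∨ ∃ j t, g = hat e j t}
  have hs : ∀ σ : ι → Ω, Injective σ → Surjective (evAt big σ) := fun σ hσ => by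
    rw [← MonoidHom.range_eq_top, range_evAt, eq_top_iff, ← hg]
    apply Subgroup.closure_mono
    rintro d (hd | ⟨⟨i, t⟩, rfl⟩)
    · exact ⟨_, Or.inl ⟨d, hd, rfl⟩, rfl⟩
    · exact ⟨_, Or.inr ⟨σ i, t, rfl⟩, hat_eq e hσ i t⟩
  have out : ∀ (σ : ι → Ω) y j t, Injective σ → (∀ i ∈ J y, σ i ≠ j) →
      ev y (hat e j t σ) = 1 := fun σ y j t hσ hj => by
    by_cases h : ∃ i, σ i = j
    · obtain ⟨i, rfl⟩ := h
      rw [hat_eq e hσ]
      exact he i t y fun hi => hj i hi rfl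
    · rw [hat, dif_neg h, map_one]
  have hl : ∀ g ∈ big, ∀ σ τ : ι → Ω, Injective σ → Injective τ → ∀ y, (∀ i ∈ J y, σ i = τ i) →
      ev y (g σ) = ev y (g τ) := by
    intro g hg σ τ hσ hτ y h
    induction hg using Subgroup.closure_induction with
    | one => rfl
    | mul a b _ _ ha hb => simp only [Pi.mul_apply, map_mul, ha, hb]
    | inv a _ ha => simp only [Pi.inv_apply, map_inv, ha]
    | mem g hg =>
      rcases hg with ⟨q, -, rfl⟩ | ⟨j, t, rfl⟩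
      · rfl
      · by_cases hj : ∃ i ∈ J y, σ i = j
        · obtain ⟨i, hi, rfl⟩ := hj
          rw [hat_eq e hσ, h i hi, hat_eq e hτ]
        · rw [out σ y j t hσ fun i hi h => hj ⟨i, hi, h⟩,
            out τ y j t hτ fun i hi h' => hj ⟨i, hi, (h i hi).trans h'⟩]
  intro d hd
  obtain ⟨g, hg', rfl⟩ := res_le_map hF' hne' _ (hs Sum.inl Sum.inl_injective) hd
  have := loc_glob (Ω := Ω) J hJ ((res F D).map (MonoidHom.pi ev)) c P
    (le_bot_iff.1 ((iter_le_lcs P c).trans_eq hc)) ∅ (by simp [Ω]) (fun σ y => ev y (g.1 σ))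
    ⟨fun σ hσ y => h2 _ (map_res hF' hne' _ (hs σ hσ.1) g hg') y,
      fun σ τ hσ hτ => hl g.1 g.2 σ τ hσ.1 hτ.1⟩ (fun ω hω => ?_) Sum.inl
      ⟨Sum.inl_injective, by simp⟩
  · exact (Subgroup.mem_map_iff_mem hsep).1 this
  let Z := {z : (ι → Ω) × Y // Injective z.1 ∧ ∀ i ∈ J z.2, z.1 i ∈ ω}
  let π : big →* (Z → G) := MonoidHom.pi fun z => (ev z.1.2).comp (evAt big z.1.1)
  let Q : Subgroup π.range := (Subgroup.pi Set.univ fun _ => P).comap (Subgroup.subtype _)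
  have hQ : ∀ x, x ∈ Q ↔ ∀ z, x.1 z ∈ P := fun x => ⟨fun h z => h z trivial, fun h z _ => h z⟩
  have : Q.Normal := ⟨fun x hx g => (hQ _).2 fun z => hP.conj_mem _ ((hQ _).1 hx z) _⟩
  obtain ⟨f, f1, -⟩ := exists_enum (Sum.inr 0 : Ω) ω hω
  have hu : ∀ j t, hat e j t ∈ big := fun j t => Subgroup.subset_closure (Or.inr ⟨j, t, rfl⟩)
  have h3 : res F' π.range ≤ res F π.range := by
    refine res_le_gen hF hF' hne h Q ?_ (fun p => π.rangeRestrict ⟨_, hu (f p.1) p.2⟩) ?_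
    · rw [eq_bot_iff]
      intro x hx
      apply Subtype.ext
      funext z
      have h4 := Subgroup.mem_map_of_mem
        ((Pi.evalMonoidHom (fun _ => G) z).comp π.range.subtype) hx
      rw [Subgroup.map_lowerCentralSeries] at h4
      have h5 := lcs_mono (Q := P) (by rintro _ ⟨x, hx, rfl⟩; exact (hQ x).1 hx z) c h4
      rwa [hc] at h5
    · rw [eq_top_iff]
      rintro ⟨_, ⟨g, hg⟩, rfl⟩ -
      change π.rangeRestrict ⟨g, hg⟩ ∈ _
      induction hg using Subgroup.closure_induction with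
      | one => exact (map_one π.rangeRestrict).symm ▸ one_mem _
      | mul a b ha hb iha ihb =>
        exact (map_mul π.rangeRestrict ⟨a, ha⟩ ⟨b, hb⟩).symm ▸ mul_mem iha ihb
      | inv a ha ih => exact (map_inv π.rangeRestrict ⟨a, ha⟩).symm ▸ inv_mem ih
      | mem g hg =>
        rcases hg with ⟨q, hq, rfl⟩ | ⟨j, t, rfl⟩
        · exact Subgroup.mem_sup_right ((hQ _).2 fun z => hq z.1.2)
        · by_cases hj : j ∈ ω
          · obtain ⟨a, rfl⟩ := f1 j hj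
            exact Subgroup.mem_sup_left (Subgroup.subset_closure ⟨(a, t), rfl⟩)
          · refine Subgroup.mem_sup_right ((hQ _).2 fun z => ?_)
            change ev z.1.2 (hat e j t z.1.1) ∈ P
            rw [out _ _ j t z.2.1 fun i hi h => hj (h ▸ z.2.2 i hi)]
            exact one_mem _
  obtain ⟨g0, hg0, h0⟩ := res_le_map hF hne _ π.rangeRestrict_surjective
    (h3 (map_res hF' hne' _ π.rangeRestrict_surjective g hg'))
  exact ⟨fun σ y => ev y (g0.1 σ), ⟨fun σ hσ y => h1 _ (map_res hF hne _ (hs σ hσ.1) g0 hg0) y,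
    fun σ τ hσ hτ => hl g0.1 g0.2 σ τ hσ.1 hτ.1⟩,
    fun σ hσ => ⟨_, map_res hF hne _ (hs σ hσ.1) g0 hg0, rfl⟩,
    fun σ hσ y h => (congrFun (congrArg Subtype.val h0) ⟨(σ, y), hσ.1, h⟩).symm⟩

end sym

end Pool.Agent.P.MP_230bb5_al.NS
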