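import Mathlib
import Pool.Agent.P.MP_230bb5_al.NGlob
import Pool.Agent.P.MP_230bb5_al.Main

set_option autoImplicit false

namespace Pool.Agent.P.MP_230bb5_al.NS

open Pool.Agent.P.MP_7ab5f9_al Function

theorem map_ker_top {D S S' : Type} [Group D] [Group S] [Group S'] [IsSimpleGroup S]
    [IsSimpleGroup S'] {s : D →* S} {s' : D →* S'} (hs : Surjective s) (hs' : Surjective s')
    (h : s.ker ≠ s'.ker) : s'.ker.map s = ⊤ := by
  refine ((inferInstance : s'.ker.Normal).map s hs).eq_bot_or_eq_top.resolve_left fun h1 => ?_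
  rw [Subgroup.map_eq_bot_iff] at h1
  rcases ((inferInstance : s.ker.Normal).map s' hs').eq_bot_or_eq_top with h3 | h3
  · rw [Subgroup.map_eq_bot_iff] at h3
    exact h (le_antisymm h3 h1)
  · obtain ⟨c, hc⟩ := exists_ne (1 : S)
    obtain ⟨d, rfl⟩ := hs c
    obtain ⟨k, hk, hkd⟩ : s' d ∈ s.ker.map s' := h3 ▸ Subgroup.mem_top _
    have h4 : d * k⁻¹ ∈ s'.ker := by simp [MonoidHom.mem_ker, hkd]
    have h5 := s.ker.mul_mem (h1 h4) hk
    exact hc (by simpa using h5)

theorem exists_below {D S ι : Type} [Group D] [Group S] {s : D →* S}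
    (hS : ⁅(⊤ : Subgroup S), (⊤ : Subgroup S)⁆ = ⊤) (N0 : Subgroup D) [h0 : N0.Normal]
    (h0' : N0.map s = ⊤) (M : ι → Subgroup D) [∀ j, (M j).Normal] (A : Finset ι)
    (h : ∀ j ∈ A, (M j).map s = ⊤) :
    ∃ N : Subgroup D, N.Normal ∧ N.map s = ⊤ ∧ N ≤ N0 ∧ ∀ j ∈ A, N ≤ M j := by
  classical
  induction A using Finset.induction_on with
  | empty => exact ⟨N0, h0, h0', le_rfl, by simp⟩
  | insert j A hj ih =>
    obtain ⟨N, hN, h1, h2, h3⟩ := ih fun i hi => h i (Finset.mem_insert_of_mem hi)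
    refine ⟨⁅N, M j⁆, inferInstance, ?_, (Subgroup.commutator_le_left _ _).trans h2,
      fun k hk => ?_⟩
    · rw [Subgroup.map_commutator, h1, h j (Finset.mem_insert_self _ _), hS]
    · rcases Finset.mem_insert.1 hk with rfl | hk
      · exact Subgroup.commutator_le_right _ _
      · exact (Subgroup.commutator_le_left _ _).trans (h3 k hk)

theorem map_iter {D S : Type} [Group D] [Group S] (s : D →* S) : ∀ (c : ℕ) (N : Subgroup D),
    ((fun H => ⁅H, H⁆)^[c] N).map s = (fun H => ⁅H, H⁆)^[c] (N.map s)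
  | 0, _ => rfl
  | c + 1, N => by rw [iterate_succ_apply, iterate_succ_apply, map_iter s c, Subgroup.map_commutator]

theorem small_left {A B : Type} {F E : Cls} (h : SmallLe (A ⊕ B) F E) : SmallLe A F E :=
  fun X _ _ u hu => h X (Sum.elim u fun _ => 1) (top_le_iff.1 (hu.ge.trans
    (Subgroup.closure_mono fun _ ⟨a, ha⟩ => ⟨.inl a, ha⟩)))

theorem small_right {A B : Type} {F E : Cls} (h : SmallLe (A ⊕ B) F E) : SmallLe B F E :=
  fun X _ _ u hu => h X (Sum.elim (fun _ => 1) u) (top_le_iff.1 (hu.ge.trans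
    (Subgroup.closure_mono fun _ ⟨a, ha⟩ => ⟨.inr a, ha⟩)))

variable {G κ : Type} [Group G] [Finite G] [Fintype κ] {S : κ → Type} [∀ a, Group (S a)]
  [∀ a, IsSimpleGroup (S a)]

theorem mem_of_sep (hS : ∀ a, ⁅(⊤ : Subgroup (S a)), (⊤ : Subgroup (S a))⁆ = ⊤)
    (t : G →* ∀ a, S a) (ht : Surjective t) {c : ℕ} (hc : t.ker.lowerCentralSeries c = ⊥)
    {D H : Type} [Group D] [Finite D] [Group H] (hD : MP_7ab5f9_al.Sep G D) (f : D →* H)
    (hf : Surjective f) {F F' : Cls} (hF : IsForm F) (hF' : IsForm F') (hH : F H)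
    (h : SmallLe (((Fin (c * (Fintype.card κ * Fintype.card κ + Fintype.card κ)) × G) ⊕ Fin c) ⊕ G)
      F F') : F' H := by
  classical
  have : Finite H := .of_surjective f hf
  have hne : ∃ (X : Type) (inst : Group X), Finite X ∧ @F X inst := ⟨H, _, this, hH⟩
  have : Finite (D →* G) := .of_injective _ DFunLike.coe_injective
  let Y := {z : D →* G // Surjective z}
  let π : ∀ a, G →* S a := fun a => (Pi.evalMonoidHom S a).comp t
  have hπ : ∀ a, Surjective (π a) := fun a => (surjective_eval a).comp ht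
  let ι := {N : Subgroup D // ∃ p : Y × κ, ((π p.2).comp p.1.1).ker = N}
  have : Fintype ι := Fintype.ofFinite ι
  let a : ι → κ := fun i => i.2.choose.2
  let s : ∀ i : ι, D →* S (a i) := fun i => (π _).comp i.2.choose.1.1
  have hs : ∀ i, Surjective (s i) := fun i => (hπ _).comp i.2.choose.1.2
  have hk : ∀ i, (s i).ker = i.1 := fun i => i.2.choose_spec
  let J : Y → Finset ι := fun y => Finset.univ.image fun b => ⟨_, (y, b), rfl⟩
  have hP : ∀ (y : Y) d, (∀ j ∈ J y, d ∈ (s j).ker) → y.1 d ∈ t.ker := fun y d hd =>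
    funext fun b => by
      have := hd _ (Finset.mem_image_of_mem _ (Finset.mem_univ b))
      rw [hk] at this
      exact this
  have hQ : ∀ d, (∀ y : Y, y.1 d ∈ t.ker) → ∀ j, d ∈ (s j).ker := fun d hd j =>
    congrFun (hd j.2.choose.1) _
  have hN : ∀ i, ∃ N : Subgroup D, N.Normal ∧ N.map (s i) = ⊤ ∧
      N ≤ (if F (S (a i)) then ⊤ else f.ker) ∧ ∀ j ∈ Finset.univ.erase i, N ≤ (s j).ker := by
    intro i
    refine exists_below (hS _) _ (h0 := by split_ifs <;> infer_instance) ?_ _ _ fun j hj =>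
      map_ker_top (hs i) (hs j) fun he => Finset.ne_of_mem_erase hj (Subtype.ext ?_)
    · split_ifs with h1
      · exact Subgroup.map_top_of_surjective _ (hs i)
      · refine ((inferInstance : f.ker.Normal).map _ (hs i)).eq_bot_or_eq_top.resolve_left
          fun h2 => h1 ?_
        exact mem_of_good hF (good_ker hF f hf hH) _ (hs i) ((Subgroup.map_eq_bot_iff _).1 h2)
    · rw [← hk, ← hk, he]
  choose N _ hmap hle0 hle using hN
  have hle' : ∀ i j, j ≠ i → N i ≤ (s j).ker := fun i j hij =>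
    hle i j (Finset.mem_erase.2 ⟨hij, Finset.mem_univ _⟩)
  have hE : ∀ i g, ∃ d ∈ N i, s i d = π _ g ∧ ∀ y, i ∉ J y → y.1 d = 1 := by
    intro i g
    have h1 : ((fun H => ⁅H, H⁆)^[c] (N i)).map (s i) = ⊤ := by
      rw [map_iter, hmap]
      exact iterate_fixed (f := fun H : Subgroup (S (a i)) => ⁅H, H⁆) (hS _) c
    obtain ⟨d, hd, h2⟩ : π _ g ∈ ((fun H => ⁅H, H⁆)^[c] (N i)).map (s i) :=
      h1 ▸ Subgroup.mem_top _
    refine ⟨d, (N i).lowerCentralSeries_antitone (Nat.zero_le c) (iter_le_lcs _ c hd), h2,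
      fun y hy => ?_⟩
    have h3 := Subgroup.mem_map_of_mem y.1 (iter_le_lcs _ c hd)
    rw [Subgroup.map_lowerCentralSeries] at h3
    have h4 := lcs_mono (Q := t.ker) (by
      rintro _ ⟨x, hx, rfl⟩
      exact hP y x fun j hj => hle' i j (fun he => hy (he ▸ hj)) hx) c h3
    rwa [hc] at h4
  choose e he1 he2 he3 using hE
  let D' : Subgroup D := Subgroup.closure
    ({d | ∀ y : Y, y.1 d ∈ t.ker} ∪ {d | ∃ i g, F (S (a i)) ∧ d = e i g})
  have hm : ∀ i g, F (S (a i)) → e i g ∈ D' := fun i g hi =>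
    Subgroup.subset_closure (Or.inr ⟨i, g, hi, rfl⟩)
  have hf' : Surjective (f.comp D'.subtype) := by
    have h1 : ∀ d, d ∈ D' ⊔ f.ker := by
      intro d
      have key : ∀ A : Finset ι, ∃ x ∈ D' ⊔ f.ker, ∀ i ∈ A, s i x = s i d := by
        intro A
        induction A using Finset.induction_on with
        | empty => exact ⟨1, one_mem _, by simp⟩
        | insert j A hj ih =>
          obtain ⟨x, hx, h1⟩ := ih
          obtain ⟨g, hg⟩ := hπ _ (s j d * (s j x)⁻¹)
          refine ⟨e j g * x, mul_mem ?_ hx, fun i hi => ?_⟩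
          · by_cases h2 : F (S (a j))
            · exact Subgroup.mem_sup_left (hm j g h2)
            · exact Subgroup.mem_sup_right (by simpa [h2] using hle0 j (he1 j g))
          · rcases Finset.mem_insert.1 hi with rfl | hi
            · simp [he2, hg]
            · have : s i (e j g) = 1 := hle' j i (fun h => hj (h ▸ hi)) (he1 j g)
              simp [this, h1 i hi]
      obtain ⟨x, hx, h1⟩ := key Finset.univ
      rw [← inv_mul_cancel_right d x]
      refine mul_mem (Subgroup.mem_sup_left (Subgroup.subset_closure (Or.inl fun y =>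
        hP y _ fun j _ => ?_))) hx
      simp [MonoidHom.mem_ker, h1 j (Finset.mem_univ _)]
    intro x
    obtain ⟨d, rfl⟩ := hf x
    obtain ⟨u, hu, v, hv, rfl⟩ := Subgroup.mem_sup_of_normal_right.1 (h1 d)
    exact ⟨⟨u, hu⟩, by simp [show f v = 1 from hv]⟩
  have hres : ∀ E : Cls, IsForm E → (∀ i, F (S (a i)) → E (S (a i))) → ∀ d ∈ res E D',
      ∀ y : Y, y.1.comp D'.subtype d ∈ t.ker := by
    intro E hE h1 d hd y
    refine hP y _ fun j _ => ?_
    by_cases h2 : F (S (a j))
    · refine res_le_ker hE ((s j).comp D'.subtype) (fun x => ?_) (h1 j h2) hd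
      obtain ⟨g, rfl⟩ := hπ _ x
      exact ⟨⟨_, hm j g h2⟩, he2 j g⟩
    · have : D' ≤ (s j).ker := by
        rw [Subgroup.closure_le]
        rintro x (hx | ⟨i, g, hi, rfl⟩)
        · exact hQ x hx j
        · exact hle' i j (fun h => h2 (h ▸ hi)) (he1 i g)
      exact this d.2
  have h1 := res_le_res (fun y : Y => y.1.comp D'.subtype) (by
      rw [injective_iff_map_eq_one]
      exact fun d hd => Subtype.ext (hD _ fun z hz => congrFun hd ⟨z, hz⟩)) t.ker hc J
    (fun y => Finset.card_image_le) (fun i g => if h : F (S (a i)) then ⟨_, hm i g h⟩ else 1)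
    (fun i g y hy => by
      split_ifs
      · exact he3 i g y hy
      · exact map_one _)
    (by
      rw [eq_top_iff, ← Subgroup.closure_closure_coe_preimage]
      apply Subgroup.closure_mono
      rintro ⟨x, hx⟩ (h1 | ⟨i, g, hi, h1⟩)
      · exact Or.inl h1
      · exact Or.inr ⟨(i, g), by simp only [uncurry, dif_pos hi]; exact Subtype.ext h1.symm⟩)
    hF hF' hne (small_left h) (hres F hF fun _ h => h) (hres F' hF' fun i hi => by
      have : Finite (S (a i)) := .of_surjective _ (hπ _)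
      exact small_right h _ (π _) (by rw [(hπ _).range_eq, Subgroup.closure_univ]) hi)
  exact mem_of_good hF' (good_res hF' (h.ne hF hne) D') _ hf' (h1.trans (res_le_ker hF _ hf' hH))

/-- finiteness for extensions of a nilpotent group by a product of nonabelian simple groups -/
theorem finite_sub (hS : ∀ a, ⁅(⊤ : Subgroup (S a)), (⊤ : Subgroup (S a))⁆ = ⊤)
    (t : G →* ∀ a, S a) (ht : Surjective t) {c : ℕ} (hc : t.ker.lowerCentralSeries c = ⊥) :
    (subformations G).Finite := by
  obtain ⟨T, _, hT⟩ : ∃ (T : Type) (_ : Finite T), ∀ {D H : Type} [Group D] [Finite D] [Group H],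
      MP_7ab5f9_al.Sep G D → ∀ f : D →* H, Surjective f → ∀ {F F' : Cls}, IsForm F → IsForm F' →
      F H → SmallLe T F F' → F' H :=
    ⟨_, inferInstance, fun hD f hf _ _ hF hF' hH h => mem_of_sep hS t ht hc hD f hf hF hF' hH h⟩
  have key : ∀ F ∈ subformations G, ∀ F' ∈ subformations G,
      {N : Subgroup (evAll G T).range | Good (ext F) N} =
        {N | Good (ext F') N} → ∀ (H : Type) [Group H] [Finite H], F H → F' H := by
    rintro F ⟨hF, hG⟩ F' ⟨hF', -⟩ he H _ _ hH
    have hs : SmallLe T (ext F) (ext F') := by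
      rintro X _ _ u hu ⟨_, hX⟩
      obtain ⟨θ, hθ⟩ := exists_surj_evAll G T (img_of_gen (hG X hX)) u hu
      have h1 : θ.ker ∈ {N | Good (ext F) N} := good_ker hF.isForm θ hθ ⟨inferInstance, hX⟩
      rw [he] at h1
      exact mem_of_good hF'.isForm h1 θ hθ le_rfl
    obtain ⟨D, _, _, hD, f, hf⟩ := img_of_gen (hG H hH)
    obtain ⟨_, h4⟩ := hT hD f hf hF.isForm hF'.isForm ⟨inferInstance, hH⟩ hs
    exact h4
  refine Set.Finite.of_finite_image (f := fun F : GroupClass =>
    {N : Subgroup (evAll G T).range | Good (ext F) N}) (Set.toFinite _) ?_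
  intro F hF F' hF' he
  funext H _ _
  exact propext ⟨key F hF F' hF' he H, key F' hF' F hF he.symm H⟩

end Pool.Agent.P.MP_230bb5_al.NS
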