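import Mathlib
import Pool.Agent.P.MP_230bb5_al.Defs
import Pool.Agent.P.MP_230bb5_al.Main

set_option autoImplicit false

theorem Pool.Agent.P.MP_230bb5_al.VariantFiniteSubformations.result
    (p : ℕ) (hp : p.Prime) (G : Type) [Group G] [Finite G] (G₁ G₂ : Subgroup G)
    [G₁.Normal] [G₂.Normal] (h₁ : ⊥ < G₁) (h₁₂ : G₁ < G₂) (h₂ : G₂ < ⊤)
    (c₁ : ∀ x ∈ G₁, ∀ y ∈ G₁, x * y = y * x) (e₁ : ∀ x ∈ G₁, x ^ p = 1)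
    (c₂ : ∀ x ∈ G₂, ∀ y ∈ G₂, x * y * x⁻¹ * y⁻¹ ∈ G₁) (e₂ : ∀ x ∈ G₂, x ^ p ∈ G₁)
    (hq : Nonempty (G ⧸ G₂ ≃* alternatingGroup (Fin 5) × alternatingGroup (Fin 5)))
    (m₁ : ∀ N : Subgroup G, N.Normal → N ≤ G₁ → N = ⊥ ∨ N = G₁)
    (m₂ : ∀ N : Subgroup G, N.Normal → G₁ ≤ N → N ≤ G₂ → N = G₁ ∨ N = G₂) :
    (Pool.Agent.P.MP_230bb5_al.subformations G).Finite :=
  Pool.Agent.P.MP_230bb5_al.main p hp G G₁ G₂ h₁ h₁₂ h₂ c₁ e₁ c₂ e₂ hq m₁ m₂
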